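import Pool.Agent.TH679.PL.Asym

/-!
The asymptotic form of the lower bound for optimal triangulations
-/

set_option autoImplicit false

namespace Pool.Agent.TH679.TG

open Filter Asymptotics
open Pool.Agent.TH679.PL (clog_le_logb)

theorem exists_large (ε : ℝ) (hε : 0 < ε) : ∃ ν₀ : ℝ, ∀ ν ≥ ν₀,
    ν ^ 2 + 2 ≤ (2 : ℝ) ^ (ε / 4 * ν) ∧ 64 / ε ≤ ν ∧ 16 ≤ ν := by
  have h1 : (fun x : ℝ => x ^ (2 : ℝ)) =o[atTop] fun x : ℝ => Real.exp ((Real.log 2 * (ε / 4)) * x) :=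
    isLittleO_rpow_exp_pos_mul_atTop 2 (by have := Real.log_pos (show (1 : ℝ) < 2 by norm_num)
                                           positivity)
  have h2 := h1.bound (show (0 : ℝ) < 1 / 2 by norm_num)
  obtain ⟨l₁, h3⟩ := eventually_atTop.1 h2
  refine ⟨max l₁ (max (64 / ε) 16), fun ν hν => ?_⟩
  have h4 : l₁ ≤ ν := le_trans (le_max_left _ _) hν
  have h5 : 64 / ε ≤ ν := le_trans (le_trans (le_max_left _ _) (le_max_right _ _)) hν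
  have h6 : 16 ≤ ν := le_trans (le_trans (le_max_right _ _) (le_max_right _ _)) hν
  refine ⟨?_, h5, h6⟩
  have h7 := h3 ν h4
  have h8 : (2 : ℝ) ^ (ε / 4 * ν) = Real.exp ((Real.log 2 * (ε / 4)) * ν) := by
    rw [Real.rpow_def_of_pos (by norm_num)]
    congr 1
    ring
  rw [← h8] at h7
  rw [Real.norm_of_nonneg (by positivity), Real.norm_of_nonneg (by positivity),
    show (2 : ℝ) = ((2 : ℕ) : ℝ) by norm_num, Real.rpow_natCast] at h7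
  push_cast at h7
  nlinarith [h7]

theorem steps_ge {ε : ℝ} (hε : 0 < ε) (hε2 : ε ≤ 1) {n K L : ℕ}
    (g1 : Real.logb 2 n ^ 2 + 2 ≤ (2 : ℝ) ^ (ε / 4 * Real.logb 2 n))
    (g2 : 64 / ε ≤ Real.logb 2 n) (g3 : 16 ≤ Real.logb 2 n) (hn : 1 ≤ n) (hL : 1 ≤ L)
    (hK : (K : ℝ) ≤ (n : ℝ) ^ (2 - ε))
    (hlaw : ∀ m s : ℕ, 1 ≤ m → (2 * m + 2) * (2 ^ s + 1) ≤ n →
      (m ^ 2) ^ (s / 3) ≤ 2 * L * ((Nat.clog 2 L + 1) * K) ^ (s / 3)) :
    (n : ℝ) ^ (ε ^ 2 / 400 * Real.logb 2 n) ≤ L := by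
  by_contra hlt
  push Not at hlt
  obtain ⟨ν, hν⟩ : ∃ ν, ν = Real.logb 2 n := ⟨_, rfl⟩
  rw [← hν] at g1 g2 g3 hlt
  have hn0 : (0 : ℝ) < n := by exact_mod_cast hn
  have hn2 : (n : ℝ) = 2 ^ ν := by
    rw [hν]
    exact (Real.rpow_logb (by norm_num) (by norm_num) hn0).symm
  have hν0 : 0 < ν := by linarith
  have hεν : 64 ≤ ε * ν := by
    rw [div_le_iff₀ hε] at g2
    linarith
  obtain ⟨s, hs⟩ : ∃ s, s = ⌊ε / 8 * ν⌋₊ := ⟨_, rfl⟩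
  have hs1 : (s : ℝ) ≤ ε / 8 * ν := by
    rw [hs]
    exact Nat.floor_le (by positivity)
  have hs2 : ε / 8 * ν < s + 1 := by
    rw [hs]
    exact Nat.lt_floor_add_one _
  obtain ⟨B, hB⟩ : ∃ B, B = ⌊ν⌋₊ := ⟨_, rfl⟩
  have hB1 : (B : ℝ) ≤ ν := by
    rw [hB]
    exact Nat.floor_le hν0.le
  have hB2 : ν < B + 1 := by
    rw [hB]
    exact Nat.lt_floor_add_one _
  have hsB : s + 3 ≤ B := by
    have h1 : (s : ℝ) + 3 ≤ B := by nlinarith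
    exact_mod_cast h1
  obtain ⟨μ, hμ⟩ : ∃ μ, μ = B - s - 3 := ⟨_, rfl⟩
  have hμ' : μ + s + 3 = B := by omega
  have hBn : 2 ^ B ≤ n := by
    have h1 : ((2 ^ B : ℕ) : ℝ) ≤ (n : ℝ) := by
      rw [hn2]
      push_cast
      rw [← Real.rpow_natCast]
      exact Real.rpow_le_rpow_of_exponent_le (by norm_num) hB1
    exact_mod_cast h1
  have hfit : (2 * 2 ^ μ + 2) * (2 ^ s + 1) ≤ n := by
    refine le_trans ?_ hBn
    have h1 : 1 ≤ 2 ^ μ := Nat.one_le_two_pow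
    have h2 : 1 ≤ 2 ^ s := Nat.one_le_two_pow
    calc (2 * 2 ^ μ + 2) * (2 ^ s + 1) ≤ (4 * 2 ^ μ) * (2 * 2 ^ s) :=
          Nat.mul_le_mul (by omega) (by omega)
      _ = 2 ^ (μ + s + 3) := by rw [pow_add, pow_add]; ring
      _ = 2 ^ B := by rw [hμ']
  obtain ⟨κ, hκ⟩ : ∃ κ, κ = s / 3 := ⟨_, rfl⟩
  have hl := hlaw (2 ^ μ) s Nat.one_le_two_pow hfit
  rw [← hκ] at hl
  have hκ1 : ε / 48 * ν ≤ κ := by
    have h1 : s ≤ 3 * κ + 2 := by omega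
    have h2 : (s : ℝ) ≤ 3 * κ + 2 := by exact_mod_cast h1
    nlinarith
  have hL0 : (0 : ℝ) < L := by exact_mod_cast hL
  have hLlog : Real.logb 2 L ≤ ε ^ 2 / 400 * ν ^ 2 := by
    rw [Real.logb_le_iff_le_rpow (by norm_num) hL0]
    refine hlt.le.trans (le_of_eq ?_)
    rw [hn2, ← Real.rpow_mul (by norm_num)]
    congr 1
    ring
  have hclog : (Nat.clog 2 L : ℝ) + 1 ≤ ν ^ 2 + 2 := by
    have e1 := clog_le_logb hL
    have e3 : ε ^ 2 ≤ 1 := by nlinarith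
    have e2 : ε ^ 2 / 400 * ν ^ 2 ≤ 1 * ν ^ 2 :=
      mul_le_mul_of_nonneg_right (by linarith) (sq_nonneg ν)
    linarith
  have hx : ((((Nat.clog 2 L + 1) * K : ℕ)) : ℝ) ≤ 2 ^ ((2 - 3 * ε / 4) * ν) := by
    push_cast
    have e0 : (K : ℝ) ≤ 2 ^ ((2 - ε) * ν) := by
      refine hK.trans (le_of_eq ?_)
      rw [hn2, ← Real.rpow_mul (by norm_num), mul_comm]
    have e1 : ((Nat.clog 2 L : ℝ) + 1) * K ≤ (ν ^ 2 + 2) * 2 ^ ((2 - ε) * ν) :=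
      mul_le_mul hclog e0 (Nat.cast_nonneg _) (by positivity)
    have e3 : (2 : ℝ) ^ ((2 - 3 * ε / 4) * ν) = 2 ^ (ε / 4 * ν) * 2 ^ ((2 - ε) * ν) := by
      rw [← Real.rpow_add (by norm_num)]
      congr 1
      ring
    rw [e3]
    exact e1.trans (mul_le_mul_of_nonneg_right g1 (by positivity))
  have hm2 : (2 : ℝ) ^ ((2 - ε / 2) * ν) ≤ (((2 ^ μ) ^ 2 : ℕ) : ℝ) := by
    have e1 : (((2 ^ μ) ^ 2 : ℕ) : ℝ) = 2 ^ ((2 * μ : ℕ) : ℝ) := by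
      rw [Real.rpow_natCast]
      push_cast
      rw [← pow_mul]
      congr 1
      ring
    rw [e1]
    refine Real.rpow_le_rpow_of_exponent_le (by norm_num) ?_
    push_cast
    have e2 : (μ : ℝ) + s + 3 = B := by exact_mod_cast hμ'
    nlinarith
  have hlaw' : ((2 : ℝ) ^ ((2 - ε / 2) * ν)) ^ κ ≤ 2 * L * (2 ^ ((2 - 3 * ε / 4) * ν)) ^ κ := by
    have e1 : (((((2 ^ μ) ^ 2) ^ κ : ℕ)) : ℝ) ≤ ((2 * L * ((Nat.clog 2 L + 1) * K) ^ κ : ℕ) : ℝ) := by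
      exact_mod_cast hl
    rw [Nat.cast_pow ((2 ^ μ) ^ 2) κ, Nat.cast_mul (2 * L), Nat.cast_pow ((Nat.clog 2 L + 1) * K) κ,
      Nat.cast_mul 2 L, Nat.cast_ofNat] at e1
    refine (pow_le_pow_left₀ (by positivity) hm2 κ).trans (e1.trans ?_)
    refine mul_le_mul_of_nonneg_left ?_ (by positivity)
    exact pow_le_pow_left₀ (Nat.cast_nonneg _) hx κ
  have hfin : ε / 4 * ν * κ ≤ 1 + ε ^ 2 / 400 * ν ^ 2 := by
    have e1 : ((2 : ℝ) ^ ((2 - ε / 2) * ν)) ^ κ =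
        2 ^ (ε / 4 * ν * κ) * (2 ^ ((2 - 3 * ε / 4) * ν)) ^ κ := by
      rw [← Real.rpow_natCast, ← Real.rpow_natCast, ← Real.rpow_mul (by norm_num),
        ← Real.rpow_mul (by norm_num), ← Real.rpow_add (by norm_num)]
      congr 1
      ring
    rw [e1] at hlaw'
    have e2 : (2 : ℝ) ^ (ε / 4 * ν * κ) ≤ 2 * L := le_of_mul_le_mul_right hlaw' (by positivity)
    have e3 : Real.logb 2 ((2 : ℝ) ^ (ε / 4 * ν * κ)) ≤ Real.logb 2 (2 * L) :=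
      Real.logb_le_logb_of_le (by norm_num) (by positivity) e2
    rw [Real.logb_rpow (by norm_num) (by norm_num), Real.logb_mul (by norm_num) hL0.ne',
      Real.logb_self_eq_one (by norm_num)] at e3
    linarith
  have e1 : ε / 4 * ν * (ε / 48 * ν) ≤ ε / 4 * ν * κ :=
    mul_le_mul_of_nonneg_left hκ1 (by positivity)
  have e2 : 64 * 64 ≤ (ε * ν) * (ε * ν) := mul_le_mul hεν hεν (by norm_num) (by positivity)
  nlinarith

end Pool.Agent.TH679.TG
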