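import Pool.Agent.TH679.TG.Main

/-!
The usual dynamic program for optimal triangulations
-/

set_option autoImplicit false
set_option linter.unusedSectionVars false

namespace Pool.Agent.TH679.TG

open Finset
open Pool.Agent.H564R3.PW (Instr runs exec)

section Upper

variable {R : Type} [CommSemiring R] {n : ℕ}

/-- the registers: an accumulator, an auxiliary register, and one for every pair -/
abbrev Reg (n : ℕ) : Type := Option (Option (Fin (n + 1) × Fin (n + 1)))

theorem card_reg (n : ℕ) : Fintype.card (Reg n) = (n + 1) ^ 2 + 2 := by
  simp [Reg, sq]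

/-- the register of an interval -/
def cell (n i j : ℕ) : Reg n := some (some (emb n (i, j)))

theorem cell_inj {i j i' j' : ℕ} (h1 : i ≤ n) (h2 : j ≤ n) (h3 : i' ≤ n) (h4 : j' ≤ n)
    (h : cell n i j = cell n i' j') : i = i' ∧ j = j' := by
  unfold cell at h
  rw [Option.some.injEq, Option.some.injEq] at h
  have := emb_inj (e := (i, j)) (e' := (i', j')) h1 h2 h3 h4 h
  rwa [Prod.mk.injEq] at this

theorem runs_app (w : Fin (n + 1) × Fin (n + 1) → R)
    (p q : List (Instr R (Fin (n + 1) × Fin (n + 1)) (Reg n))) (v : Reg n → R) :
    runs w (p ++ q) v = runs w q (runs w p v) := by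
  unfold runs
  rw [List.foldl_append]

/-- two instructions for an inner point -/
def inner (n i j k : ℕ) : List (Instr R (Fin (n + 1) × Fin (n + 1)) (Reg n)) :=
  [.mul (some none) (cell n i k) (cell n k j), .add none none (some none)]

theorem inner_run (w : Fin (n + 1) × Fin (n + 1) → R) (i j k : ℕ) (v : Reg n → R) :
    runs w (inner n i j k) v = Function.update (Function.update v (some none)
      (v (cell n i k) * v (cell n k j))) none (v none + v (cell n i k) * v (cell n k j)) := by
  obtain ⟨c, hc⟩ : ∃ c, c = v (cell n i k) * v (cell n k j) := ⟨_, rfl⟩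
  have h : runs w (inner n i j k) v = Function.update (Function.update v (some none)
      (v (cell n i k) * v (cell n k j))) none ((Function.update v (some none)
      (v (cell n i k) * v (cell n k j))) none + (Function.update v (some none)
      (v (cell n i k) * v (cell n k j))) (some none)) := rfl
  rw [h, ← hc, Function.update_self, Function.update_of_ne (show (none : Reg n) ≠ some none by simp)]

/-- the instructions for the first `c` inner points of the interval `[i, j]` -/
def loop (n i j : ℕ) : ℕ → List (Instr R (Fin (n + 1) × Fin (n + 1)) (Reg n))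
  | 0 => []
  | c + 1 => loop n i j c ++ inner n i j (i + (c + 1))

theorem loop_length (i j c : ℕ) : (loop (R := R) n i j c).length = 2 * c := by
  induction c with
  | zero => rfl
  | succ c ih => rw [loop, List.length_append, ih]; simp [inner]; ring

theorem loop_cell (w : Fin (n + 1) × Fin (n + 1) → R) (i j : ℕ) (c : ℕ) (v : Reg n → R)
    (x : Fin (n + 1) × Fin (n + 1)) :
    runs w (loop n i j c) v (some (some x)) = v (some (some x)) := by
  induction c with
  | zero => rfl
  | succ c ih =>
    rw [loop, runs_app, inner_run, Function.update_of_ne (by simp),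
      Function.update_of_ne (by simp)]
    exact ih

theorem loop_acc (w : Fin (n + 1) × Fin (n + 1) → R) (i j : ℕ) (c : ℕ) (v : Reg n → R) :
    runs w (loop n i j c) v none = v none +
      ∑ k ∈ range c, v (cell n i (i + (k + 1))) * v (cell n (i + (k + 1)) j) := by
  induction c with
  | zero => simp [loop, runs]
  | succ c ih =>
    rw [loop, runs_app, sum_range_succ, ← add_assoc (v none) _ _, ← ih, inner_run,
      Function.update_self]
    congr 1
    unfold cell
    rw [loop_cell, loop_cell]

/-- the instructions for the interval `[i, i + l]` -/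
def seg (n i : ℕ) : ℕ → List (Instr R (Fin (n + 1) × Fin (n + 1)) (Reg n))
  | 0 => []
  | 1 => [.const (cell n i (i + 1)) 1]
  | l + 2 => (.const none 0 :: loop n i (i + (l + 2)) (l + 1)) ++
      [.load (some none) (emb n (i, i + (l + 2))),
        .mul (cell n i (i + (l + 2))) (some none) none]

theorem seg_length (i l : ℕ) : (seg (R := R) n i l).length ≤ 2 * l + 1 := by
  rcases l with _ | _ | l
  · simp [seg]
  · simp [seg]
  · rw [seg, List.length_append, List.length_cons, loop_length]
    simp
    omega

/-- the values of the intervals -/
noncomputable def vl (n : ℕ) (w : Fin (n + 1) × Fin (n + 1) → R) (l i : ℕ) : R :=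
  val (fun i j => w (emb n (i, j))) l i

theorem seg_run (w : Fin (n + 1) × Fin (n + 1) → R) (v : Reg n → R) (i l : ℕ) (hl : 1 ≤ l)
    (hil : i + l ≤ n)
    (hv : ∀ l' a, 1 ≤ l' → l' < l → a + l' ≤ n → v (cell n a (a + l')) = vl n w l' a)
    (x : Fin (n + 1) × Fin (n + 1)) :
    runs w (seg n i l) v (some (some x)) =
      if x = emb n (i, i + l) then vl n w l i else v (some (some x)) := by
  rcases l with _ | _ | l
  · omega
  · show Function.update v (cell n i (i + 1)) 1 (some (some x)) = _
    have h1 : vl n w (0 + 1) i = 1 := by
      unfold vl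
      rw [val]
    rw [h1]
    split_ifs with h
    · rw [h]
      exact Function.update_self ..
    · refine Function.update_of_ne ?_ _ _
      unfold cell
      rw [Ne, Option.some.injEq, Option.some.injEq]
      exact h
  · rw [seg, runs_app]
    have hacc : runs w (.const none 0 :: loop n i (i + (l + 2)) (l + 1)) v none =
        ∑ k : Fin (l + 1), vl n w (k.val + 1) i * vl n w (l + 1 - k.val) (i + (k.val + 1)) := by
      show runs w (loop n i (i + (l + 2)) (l + 1)) (Function.update v none 0) none = _
      rw [loop_acc, Function.update_self, zero_add, ← Fin.sum_univ_eq_sum_range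
        (fun k => Function.update v none 0 (cell n i (i + (k + 1))) *
          Function.update v none 0 (cell n (i + (k + 1)) (i + (l + 2))))]
      refine sum_congr rfl fun k _ => ?_
      have hk := k.2
      rw [Function.update_of_ne (by simp [cell]), Function.update_of_ne (by simp [cell]),
        hv _ _ (by omega) (by omega) (by omega)]
      congr 1
      have e : i + (l + 2) = i + (k.val + 1) + (l + 1 - k.val) := by omega
      rw [e]
      exact hv _ _ (by omega) (by omega) (by omega)
    have hcell : runs w (.const none 0 :: loop n i (i + (l + 2)) (l + 1)) v (some (some x)) =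
        v (some (some x)) := by
      show runs w (loop n i (i + (l + 2)) (l + 1)) (Function.update v none 0) (some (some x)) = _
      rw [loop_cell, Function.update_of_ne (by simp)]
    obtain ⟨v', hv'⟩ : ∃ v', v' = runs w (.const none 0 :: loop n i (i + (l + 2)) (l + 1)) v :=
      ⟨_, rfl⟩
    rw [← hv'] at hacc hcell ⊢
    show Function.update (Function.update v' (some none) (w (emb n (i, i + (l + 2)))))
      (cell n i (i + (l + 2))) (Function.update v' (some none) (w (emb n (i, i + (l + 2))))
        (some none) * Function.update v' (some none) (w (emb n (i, i + (l + 2)))) none)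
      (some (some x)) = _
    rw [Function.update_self, Function.update_of_ne (show (none : Reg n) ≠ some none by simp), hacc]
    split_ifs with h
    · rw [h]
      show Function.update _ (cell n i (i + (l + 2))) _ (cell n i (i + (l + 2))) = _
      rw [Function.update_self]
      unfold vl
      rw [val]
    · rw [Function.update_of_ne, Function.update_of_ne (by simp), hcell]
      unfold cell
      rw [Ne, Option.some.injEq, Option.some.injEq]
      exact h

/-- the instructions for the first `c` intervals of length `l` -/
def row (n l : ℕ) : ℕ → List (Instr R (Fin (n + 1) × Fin (n + 1)) (Reg n))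
  | 0 => []
  | c + 1 => row n l c ++ seg n c l

theorem row_length {l : ℕ} (hl : l ≤ n) (c : ℕ) :
    (row (R := R) n l c).length ≤ c * (2 * n + 1) := by
  induction c with
  | zero => simp [row]
  | succ c ih =>
    rw [row, List.length_append, Nat.succ_mul]
    have := seg_length (R := R) (n := n) c l
    omega

theorem row_run (w : Fin (n + 1) × Fin (n + 1) → R) (v : Reg n → R) (l : ℕ) (hl : 1 ≤ l)
    (hv : ∀ l' a, 1 ≤ l' → l' < l → a + l' ≤ n → v (cell n a (a + l')) = vl n w l' a) :
    ∀ c, c + l ≤ n + 1 → (∀ l' a, 1 ≤ l' → l' < l → a + l' ≤ n →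
      runs w (row n l c) v (cell n a (a + l')) = vl n w l' a) ∧
      ∀ a < c, runs w (row n l c) v (cell n a (a + l)) = vl n w l a := by
  intro c
  induction c with
  | zero => intro _; exact ⟨hv, fun a ha => by omega⟩
  | succ c ih =>
    intro hc
    obtain ⟨h1, h2⟩ := ih (by omega)
    have h3 := seg_run w (runs w (row n l c) v) c l hl (by omega) h1
    constructor
    · intro l' a ha hla hal
      rw [row, runs_app]
      unfold cell
      rw [h3, if_neg]
      · exact h1 l' a ha hla hal
      · intro h4
        have := emb_inj (e := (a, a + l')) (e' := (c, c + l)) (by dsimp only; omega)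
          (by dsimp only; omega) (by dsimp only; omega) (by dsimp only; omega) h4
        rw [Prod.mk.injEq] at this
        omega
    · intro a ha
      rw [row, runs_app]
      unfold cell
      rw [h3]
      split_ifs with h4
      · have := emb_inj (e := (a, a + l)) (e' := (c, c + l)) (by dsimp only; omega)
          (by dsimp only; omega) (by dsimp only; omega) (by dsimp only; omega) h4
        rw [Prod.mk.injEq] at this
        rw [this.1]
      · have h5 : a ≠ c := by
          rintro rfl
          exact h4 rfl
        exact h2 a (by omega)

/-- the instructions for all intervals of length at most `L` -/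
def prog (n : ℕ) : ℕ → List (Instr R (Fin (n + 1) × Fin (n + 1)) (Reg n))
  | 0 => []
  | L + 1 => prog n L ++ row n (L + 1) (n - L)

theorem prog_length {L : ℕ} (hL : L ≤ n) : (prog (R := R) n L).length ≤ L * (n * (2 * n + 1)) := by
  induction L with
  | zero => simp [prog]
  | succ L ih =>
    rw [prog, List.length_append, Nat.succ_mul]
    have h1 := row_length (R := R) hL (n - L)
    have h2 : (n - L) * (2 * n + 1) ≤ n * (2 * n + 1) := Nat.mul_le_mul_right _ (Nat.sub_le _ _)
    have h3 := ih (by omega)
    omega

theorem prog_run (w : Fin (n + 1) × Fin (n + 1) → R) : ∀ L, L ≤ n →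
    ∀ l' a, 1 ≤ l' → l' ≤ L → a + l' ≤ n →
      exec w (prog n L) (cell n a (a + l')) = vl n w l' a := by
  intro L
  induction L with
  | zero => intro _ l' a h1 h2; omega
  | succ L ih =>
    intro hL l' a h1 h2 h3
    have h4 := row_run w (exec w (prog n L)) (L + 1) (by omega) (by
      intro l' a h1 h2 h3
      exact ih (by omega) l' a h1 (by omega) h3) (n - L) (by omega)
    unfold exec at h4 ⊢
    rw [prog, runs_app]
    rcases Nat.lt_or_ge l' (L + 1) with h5 | h5
    · exact h4.1 l' a h1 h5 h3
    · have h6 : l' = L + 1 := le_antisymm h2 h5
      rw [h6]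
      exact h4.2 a (by omega)

end Upper

/-- The usual dynamic program. -/
theorem upper (n : ℕ) (hn : 1 ≤ n) (R : Type) [CommSemiring R] :
    ∃ (ρ : Type) (_ : Fintype ρ) (_ : DecidableEq ρ)
      (p : List (Instr R (Fin (n + 1) × Fin (n + 1)) ρ)) (o : ρ),
      Fintype.card ρ = (n + 1) ^ 2 + 2 ∧ p.length ≤ n ^ 2 * (2 * n + 1) ∧
      ∀ w : Fin (n + 1) × Fin (n + 1) → R, exec w p o = polygon n w := by
  refine ⟨Reg n, inferInstance, inferInstance, prog n n, cell n 0 (0 + n), card_reg n, ?_, ?_⟩
  · refine (prog_length le_rfl).trans (le_of_eq ?_)
    ring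
  · intro w
    exact prog_run w n le_rfl n 0 hn le_rfl (by omega)

end Pool.Agent.TH679.TG
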