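import Pool.Agent.H564R3.TS.Real

/-!
Substitution of variables and of the constants 0 and 1 for the variables of a program
-/

set_option autoImplicit false
set_option linter.unusedSectionVars false

namespace Pool.Agent.TH679.TG

open Finset
open Pool.Agent.H564R3.PW (Instr runs exec syms)
open Pool.Agent.H564R3.TS

variable {R X Y ρ : Type}

/-- the value of `cls` is `none` if the variable is replaced by 0, `some none` if it is replaced by
1, `some (some y)` if it is replaced by the variable `y` -/
def sub [Zero R] [One R] (cls : X → Option (Option Y)) : Instr R X ρ → Instr R Y ρ
  | .load i x => match cls x with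
    | none => .const i 0
    | some none => .const i 1
    | some (some y) => .load i y
  | .const i c => .const i c
  | .add i j l => .add i j l
  | .mul i j l => .mul i j l

/-- the variable is not replaced by 0 in the monomial -/
def Ok (cls : X → Option (Option Y)) (u : X → ℕ) : Prop := ∀ x, cls x = none → u x = 0

variable [Fintype X] [DecidableEq Y]

/-- the monomial after the substitution -/
def img (cls : X → Option (Option Y)) (u : X → ℕ) : Y → ℕ := fun y =>
  ∑ x ∈ univ.filter (fun x => cls x = some (some y)), u x

theorem img_zero (cls : X → Option (Option Y)) : img cls 0 = 0 := by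
  funext y
  simp [img]

theorem img_add (cls : X → Option (Option Y)) (u v : X → ℕ) :
    img cls (u + v) = img cls u + img cls v := by
  funext y
  simp [img, sum_add_distrib]

theorem ok_add (cls : X → Option (Option Y)) (u v : X → ℕ) :
    Ok cls (u + v) ↔ Ok cls u ∧ Ok cls v := by
  constructor
  · intro h
    refine ⟨fun x hx => ?_, fun x hx => ?_⟩
    · have := h x hx
      simp only [Pi.add_apply] at this
      omega
    · have := h x hx
      simp only [Pi.add_apply] at this
      omega
  · rintro ⟨h1, h2⟩ x hx
    rw [Pi.add_apply, h1 x hx, h2 x hx]

variable [DecidableEq X]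

theorem img_single (cls : X → Option (Option Y)) (x : X) (y : Y) (h : cls x = some (some y)) :
    img cls (Pi.single x 1) = Pi.single y 1 := by
  funext y'
  unfold img
  by_cases hy : y' = y
  · subst hy
    rw [Pi.single_eq_same, sum_eq_single x]
    · rw [Pi.single_eq_same]
    · intro b _ hb
      rw [Pi.single_eq_of_ne hb]
    · intro h1
      exact absurd (by rw [mem_filter]; exact ⟨mem_univ _, h⟩) h1
  · rw [Pi.single_eq_of_ne hy]
    refine sum_eq_zero fun b hb => ?_
    rw [mem_filter] at hb
    refine Pi.single_eq_of_ne ?_ _
    rintro rfl
    rw [h] at hb
    apply hy
    have := hb.2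
    simp only [Option.some.injEq] at this
    exact this.symm

theorem img_single_none (cls : X → Option (Option Y)) (x : X) (h : cls x = some none) :
    img cls (Pi.single x 1) = 0 := by
  funext y'
  unfold img
  refine sum_eq_zero fun b hb => ?_
  rw [mem_filter] at hb
  refine Pi.single_eq_of_ne ?_ _
  rintro rfl
  rw [h] at hb
  exact absurd hb.2 (by simp)

theorem ok_single (cls : X → Option (Option Y)) (x : X) :
    Ok cls (Pi.single x 1) ↔ cls x ≠ none := by
  constructor
  · intro h h1
    have := h x h1
    rw [Pi.single_eq_same] at this
    exact one_ne_zero this
  · intro h x' hx'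
    refine Pi.single_eq_of_ne ?_ _
    rintro rfl
    exact h hx'

variable [Semiring R] [Nontrivial R] [DecidableEq ρ]

theorem syms_sub (cls : X → Option (Option Y)) (p : List (Instr R X ρ)) :
    ∀ i, syms (p.map (sub cls)) i = {v | ∃ u ∈ syms p i, Ok cls u ∧ img cls u = v} := by
  induction p using List.reverseRecOn with
  | nil =>
    intro i
    ext v
    simp [syms]
  | append_singleton p I ih =>
    intro i
    rw [List.map_append, List.map_singleton, b2_syms_append, b2_syms_append]
    cases I with
    | load j x =>
      by_cases hij : i = j
      · subst hij
        have hR : (Instr.load i x : Instr R X ρ).sym (syms p) i = {Pi.single x 1} := by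
          simp only [Instr.sym, Function.update_self]
        rw [hR]
        rcases hc : cls x with _ | _ | y
        · have hL : (sub cls (Instr.load i x : Instr R X ρ)) = .const i 0 := by
            simp only [sub, hc]
          rw [hL]
          simp only [Instr.sym, Function.update_self]
          ext v
          constructor
          · rintro ⟨_, h⟩
            exact absurd rfl h
          · rintro ⟨u, hu, h1, _⟩
            rw [Set.mem_singleton_iff] at hu
            subst hu
            exact absurd hc ((ok_single cls x).1 h1)
        · have hL : (sub cls (Instr.load i x : Instr R X ρ)) = .const i 1 := by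
            simp only [sub, hc]
          rw [hL]
          simp only [Instr.sym, Function.update_self]
          ext v
          constructor
          · rintro ⟨h, _⟩
            refine ⟨_, rfl, (ok_single cls x).2 (by rw [hc]; simp), ?_⟩
            rw [img_single_none cls x hc, h]
          · rintro ⟨u, hu, _, h2⟩
            rw [Set.mem_singleton_iff] at hu
            subst hu
            rw [img_single_none cls x hc] at h2
            exact ⟨h2.symm, one_ne_zero⟩
        · have hL : (sub cls (Instr.load i x : Instr R X ρ)) = .load i y := by
            simp only [sub, hc]
          rw [hL]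
          simp only [Instr.sym, Function.update_self]
          ext v
          constructor
          · intro h
            rw [Set.mem_singleton_iff] at h
            refine ⟨_, rfl, (ok_single cls x).2 (by rw [hc]; simp), ?_⟩
            rw [img_single cls x y hc, h]
          · rintro ⟨u, hu, _, h2⟩
            rw [Set.mem_singleton_iff] at hu
            subst hu
            rw [img_single cls x y hc] at h2
            exact h2.symm
      · have h1 : ∀ s, (Instr.load j x : Instr R X ρ).sym s i = s i := by
          intro s
          simp only [Instr.sym, Function.update_of_ne hij]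
        have h2 : ∀ s, (sub cls (Instr.load j x : Instr R X ρ)).sym s i = s i := by
          intro s
          rcases hc : cls x with _ | _ | y <;>
          simp only [sub, hc, Instr.sym, Function.update_of_ne hij]
        rw [h1, h2]
        exact ih i
    | const j c =>
      by_cases hij : i = j
      · subst hij
        simp only [sub, Instr.sym, Function.update_self]
        ext v
        constructor
        · rintro ⟨rfl, hc⟩
          exact ⟨0, ⟨rfl, hc⟩, fun _ _ => rfl, img_zero cls⟩
        · rintro ⟨u, ⟨rfl, hc⟩, _, rfl⟩
          exact ⟨img_zero cls, hc⟩
      · simp only [sub, Instr.sym, Function.update_of_ne hij]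
        exact ih i
    | add j a b =>
      by_cases hij : i = j
      · subst hij
        simp only [sub, Instr.sym, Function.update_self]
        rw [ih a, ih b]
        ext v
        constructor
        · rintro (⟨u, hu, h1, h2⟩ | ⟨u, hu, h1, h2⟩)
          · exact ⟨u, Or.inl hu, h1, h2⟩
          · exact ⟨u, Or.inr hu, h1, h2⟩
        · rintro ⟨u, hu | hu, h1, h2⟩
          · exact Or.inl ⟨u, hu, h1, h2⟩
          · exact Or.inr ⟨u, hu, h1, h2⟩
      · simp only [sub, Instr.sym, Function.update_of_ne hij]
        exact ih i
    | mul j a b =>
      by_cases hij : i = j
      · subst hij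
        simp only [sub, Instr.sym, Function.update_self]
        rw [ih a, ih b]
        ext v
        constructor
        · rintro ⟨_, ⟨u, hu, h1, rfl⟩, _, ⟨u', hu', h1', rfl⟩, rfl⟩
          exact ⟨u + u', ⟨u, hu, u', hu', rfl⟩, (ok_add cls u u').2 ⟨h1, h1'⟩,
            img_add cls u u'⟩
        · rintro ⟨_, ⟨u, hu, u', hu', rfl⟩, h1, rfl⟩
          rw [ok_add] at h1
          exact ⟨_, ⟨u, hu, h1.1, rfl⟩, _, ⟨u', hu', h1.2, rfl⟩, img_add cls u u'⟩
      · simp only [sub, Instr.sym, Function.update_of_ne hij]
        exact ih i

end Pool.Agent.TH679.TG
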