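import Pool.Agent.TH679.DB.Rec

/-!
Dyadic intervals, and sets of dyadic intervals whose borders are seen
-/

set_option autoImplicit false

namespace Pool.Agent.TH679.TG

open Finset

/-- the dyadic intervals `[y, y + 2 ^ t]` (coded by `(y, t)`) inside of `[x, x + 2 ^ s]` -/
def M (s x : ℕ) : Finset (ℕ × ℕ) :=
  (range (x + 2 ^ s) ×ˢ range (s + 1)).filter
    (fun e => x ≤ e.1 ∧ 2 ^ e.2 ∣ e.1 ∧ e.1 + 2 ^ e.2 ≤ x + 2 ^ s)

theorem mem_M {s x : ℕ} {e : ℕ × ℕ} :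
    e ∈ M s x ↔ e.2 ≤ s ∧ x ≤ e.1 ∧ 2 ^ e.2 ∣ e.1 ∧ e.1 + 2 ^ e.2 ≤ x + 2 ^ s := by
  rw [M, mem_filter, mem_product, mem_range, mem_range]
  have h1 : 1 ≤ 2 ^ e.2 := Nat.one_le_two_pow
  constructor
  · rintro ⟨⟨_, h2⟩, h3, h4, h5⟩
    exact ⟨by omega, h3, h4, h5⟩
  · rintro ⟨h2, h3, h4, h5⟩
    exact ⟨⟨by omega, by omega⟩, h3, h4, h5⟩

/-- `v` is an end of the interval `e` -/
def Inc (v : ℕ) (e : ℕ × ℕ) : Prop := e.1 = v ∨ e.1 + 2 ^ e.2 = v

theorem dvd_lt {a b k : ℕ} (ha : k ∣ a) (hb : k ∣ b) (h : a < b) : a + k ≤ b := by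
  obtain ⟨c, rfl⟩ := ha
  obtain ⟨c', rfl⟩ := hb
  have h1 : c < c' := lt_of_mul_lt_mul_left h (Nat.zero_le _)
  calc k * c + k = k * (c + 1) := by ring
    _ ≤ k * c' := Nat.mul_le_mul_left k h1

theorem M_succ {s x : ℕ} (hx : 2 ^ (s + 1) ∣ x) :
    M (s + 1) x = insert (x, s + 1) (M s x ∪ M s (x + 2 ^ s)) := by
  have h2s : 2 ^ (s + 1) = 2 ^ s + 2 ^ s := by rw [pow_succ]; ring
  have hxs : 2 ^ s ∣ x := (pow_dvd_pow 2 (Nat.le_succ s)).trans hx
  ext ⟨y, t⟩
  rw [mem_insert, mem_union, mem_M, mem_M, mem_M]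
  dsimp only
  constructor
  · rintro ⟨h1, h2, h3, h4⟩
    rcases Nat.lt_or_ge s t with h5 | h5
    · have h6 : t = s + 1 := by omega
      subst h6
      left
      have : y = x := by omega
      rw [this]
    · right
      have h6 : 2 ^ t ∣ x + 2 ^ s := by
        refine Nat.dvd_add ((pow_dvd_pow 2 h5).trans hxs) (pow_dvd_pow 2 h5)
      rcases Nat.lt_or_ge y (x + 2 ^ s) with h7 | h7
      · left
        exact ⟨h5, h2, h3, dvd_lt h3 h6 h7⟩
      · right
        exact ⟨h5, h7, h3, by omega⟩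
  · rintro (h | ⟨h1, h2, h3, h4⟩ | ⟨h1, h2, h3, h4⟩)
    · rw [Prod.mk.injEq] at h
      obtain ⟨rfl, rfl⟩ := h
      exact ⟨le_rfl, le_rfl, hx, le_rfl⟩
    · exact ⟨by omega, h2, h3, by omega⟩
    · exact ⟨by omega, by omega, h3, by omega⟩

theorem M_zero (x : ℕ) : M 0 x = {(x, 0)} := by
  ext ⟨y, t⟩
  rw [mem_M, mem_singleton, Prod.mk.injEq]
  dsimp only
  constructor
  · rintro ⟨h1, h2, h3, h4⟩
    have : t = 0 := by omega
    subst this
    simp only [pow_zero] at h4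
    exact ⟨by omega, rfl⟩
  · rintro ⟨rfl, rfl⟩
    simp

theorem top_mem {s x : ℕ} (hx : 2 ^ s ∣ x) : (x, s) ∈ M s x := by
  rw [mem_M]
  exact ⟨le_rfl, le_rfl, hx, le_rfl⟩

theorem M_sub {s x s' y : ℕ} (hs : s' ≤ s) (h1 : x ≤ y) (h2 : y + 2 ^ s' ≤ x + 2 ^ s) :
    M s' y ⊆ M s x := by
  intro e he
  rw [mem_M] at he ⊢
  obtain ⟨a, b, c, d⟩ := he
  exact ⟨by omega, by omega, c, by omega⟩

/-- `v` is an end of intervals in and out of `D` -/
def Mx (D : Finset (ℕ × ℕ)) (s x v : ℕ) : Prop :=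
  (∃ e ∈ M s x, e ∈ D ∧ Inc v e) ∧ ∃ e ∈ M s x, e ∉ D ∧ Inc v e

open Classical in
/-- the points at which intervals in and out of `D` end -/
noncomputable def mixed (D : Finset (ℕ × ℕ)) (s x : ℕ) : Finset ℕ :=
  (Icc x (x + 2 ^ s)).filter (Mx D s x)

theorem inc_mem {s x v : ℕ} {e : ℕ × ℕ} (he : e ∈ M s x) (h : Inc v e) : v ∈ Icc x (x + 2 ^ s) := by
  rw [mem_M] at he
  rw [mem_Icc]
  rcases h with h | h <;> omega

theorem mem_mixed {D : Finset (ℕ × ℕ)} {s x v : ℕ} : v ∈ mixed D s x ↔ Mx D s x v := by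
  classical
  unfold mixed
  rw [mem_filter]
  constructor
  · exact fun h => h.2
  · intro h
    obtain ⟨e, he, _, h1⟩ := h.1
    exact ⟨inc_mem he h1, h⟩

theorem mixed_mono {D : Finset (ℕ × ℕ)} {s x s' y : ℕ} (h : M s' y ⊆ M s x) :
    mixed D s' y ⊆ mixed D s x := by
  intro v hv
  rw [mem_mixed] at hv ⊢
  obtain ⟨⟨e, he, h1⟩, e', he', h2⟩ := hv
  exact ⟨⟨e, h he, h1⟩, e', h he', h2⟩

/-- a nontrivial part of the intervals has at least two ends -/
theorem two_le_mixed {D : Finset (ℕ × ℕ)} : ∀ {s x : ℕ}, 2 ^ s ∣ x → ¬ M s x ⊆ D →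
    ¬ Disjoint (M s x) D → 2 ≤ (mixed D s x).card := by
  intro s
  induction s with
  | zero =>
    intro x _ h1 h2
    exfalso
    rw [M_zero] at h1 h2
    rw [singleton_subset_iff] at h1
    rw [disjoint_singleton_left] at h2
    exact h2 h1
  | succ s ih =>
    intro x hx h1 h2
    have h2s : 2 ^ (s + 1) = 2 ^ s + 2 ^ s := by rw [pow_succ]; ring
    have hpos : 1 ≤ 2 ^ s := Nat.one_le_two_pow
    have hxs : 2 ^ s ∣ x := (pow_dvd_pow 2 (Nat.le_succ s)).trans hx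
    have hxs' : 2 ^ s ∣ x + 2 ^ s := Nat.dvd_add hxs (dvd_refl _)
    have hL : M s x ⊆ M (s + 1) x := M_sub (by omega) le_rfl (by omega)
    have hR : M s (x + 2 ^ s) ⊆ M (s + 1) x := M_sub (by omega) (by omega) (by omega)
    have hT : (x, s + 1) ∈ M (s + 1) x := top_mem hx
    by_cases hLu : ¬ M s x ⊆ D ∧ ¬ Disjoint (M s x) D
    · exact (ih hxs hLu.1 hLu.2).trans (card_le_card (mixed_mono hL))
    by_cases hRu : ¬ M s (x + 2 ^ s) ⊆ D ∧ ¬ Disjoint (M s (x + 2 ^ s)) D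
    · exact (ih hxs' hRu.1 hRu.2).trans (card_le_card (mixed_mono hR))
    have hLu' : M s x ⊆ D ∨ Disjoint (M s x) D := by
      by_contra h
      exact hLu (not_or.1 h)
    have hRu' : M s (x + 2 ^ s) ⊆ D ∨ Disjoint (M s (x + 2 ^ s)) D := by
      by_contra h
      exact hRu (not_or.1 h)
    have eL : (x, s) ∈ M s x := top_mem hxs
    have eR : (x + 2 ^ s, s) ∈ M s (x + 2 ^ s) := top_mem hxs'
    have iL0 : Inc x (x, s) := Or.inl rfl
    have iL1 : Inc (x + 2 ^ s) (x, s) := Or.inr rfl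
    have iR0 : Inc (x + 2 ^ s) (x + 2 ^ s, s) := Or.inl rfl
    have iR1 : Inc (x + 2 ^ (s + 1)) (x + 2 ^ s, s) := by
      right
      show x + 2 ^ s + 2 ^ s = x + 2 ^ (s + 1)
      omega
    have iT0 : Inc x (x, s + 1) := Or.inl rfl
    have iT1 : Inc (x + 2 ^ (s + 1)) (x, s + 1) := Or.inr rfl
    have two : ∀ a b : ℕ, a ≠ b → a ∈ mixed D (s + 1) x → b ∈ mixed D (s + 1) x →
        2 ≤ (mixed D (s + 1) x).card := by
      intro a b hab ha hb
      calc 2 = ({a, b} : Finset ℕ).card := (card_pair hab).symm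
        _ ≤ _ := card_le_card (by
          intro v hv
          rw [mem_insert, mem_singleton] at hv
          rcases hv with rfl | rfl
          · exact ha
          · exact hb)
    by_cases hTD : (x, s + 1) ∈ D
    · rcases hLu' with hLD | hLD
      · rcases hRu' with hRD | hRD
        · exfalso
          apply h1
          rw [M_succ hx]
          intro e he
          rw [mem_insert, mem_union] at he
          rcases he with rfl | he | he
          · exact hTD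
          · exact hLD he
          · exact hRD he
        · refine two (x + 2 ^ s) (x + 2 ^ (s + 1)) (by omega) ?_ ?_
          · exact mem_mixed.2 ⟨⟨_, hL eL, hLD eL, iL1⟩,
              ⟨_, hR eR, disjoint_left.1 hRD eR, iR0⟩⟩
          · exact mem_mixed.2 ⟨⟨_, hT, hTD, iT1⟩, ⟨_, hR eR, disjoint_left.1 hRD eR, iR1⟩⟩
      · rcases hRu' with hRD | hRD
        · refine two (x + 2 ^ s) x (by omega) ?_ ?_
          · exact mem_mixed.2 ⟨⟨_, hR eR, hRD eR, iR0⟩,
              ⟨_, hL eL, disjoint_left.1 hLD eL, iL1⟩⟩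
          · exact mem_mixed.2 ⟨⟨_, hT, hTD, iT0⟩, ⟨_, hL eL, disjoint_left.1 hLD eL, iL0⟩⟩
        · refine two x (x + 2 ^ (s + 1)) (by omega) ?_ ?_
          · exact mem_mixed.2 ⟨⟨_, hT, hTD, iT0⟩, ⟨_, hL eL, disjoint_left.1 hLD eL, iL0⟩⟩
          · exact mem_mixed.2 ⟨⟨_, hT, hTD, iT1⟩, ⟨_, hR eR, disjoint_left.1 hRD eR, iR1⟩⟩
    · rcases hLu' with hLD | hLD
      · rcases hRu' with hRD | hRD
        · refine two x (x + 2 ^ (s + 1)) (by omega) ?_ ?_
          · exact mem_mixed.2 ⟨⟨_, hL eL, hLD eL, iL0⟩, ⟨_, hT, hTD, iT0⟩⟩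
          · exact mem_mixed.2 ⟨⟨_, hR eR, hRD eR, iR1⟩, ⟨_, hT, hTD, iT1⟩⟩
        · refine two x (x + 2 ^ s) (by omega) ?_ ?_
          · exact mem_mixed.2 ⟨⟨_, hL eL, hLD eL, iL0⟩, ⟨_, hT, hTD, iT0⟩⟩
          · exact mem_mixed.2 ⟨⟨_, hL eL, hLD eL, iL1⟩,
              ⟨_, hR eR, disjoint_left.1 hRD eR, iR0⟩⟩
      · rcases hRu' with hRD | hRD
        · refine two (x + 2 ^ s) (x + 2 ^ (s + 1)) (by omega) ?_ ?_
          · exact mem_mixed.2 ⟨⟨_, hR eR, hRD eR, iR0⟩,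
              ⟨_, hL eL, disjoint_left.1 hLD eL, iL1⟩⟩
          · exact mem_mixed.2 ⟨⟨_, hR eR, hRD eR, iR1⟩, ⟨_, hT, hTD, iT1⟩⟩
        · exfalso
          apply h2
          rw [M_succ hx, disjoint_left]
          intro e he
          rw [mem_insert, mem_union] at he
          rcases he with rfl | he | he
          · exact hTD
          · exact disjoint_left.1 hLD he
          · exact disjoint_left.1 hRD he

/-- a window without ends of `D` -/
theorem uniform_of {D : Finset (ℕ × ℕ)} {s x s' y : ℕ} (hy : 2 ^ s' ∣ y) (h : M s' y ⊆ M s x)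
    (hd : Disjoint (Icc y (y + 2 ^ s')) (mixed D s x)) : M s' y ⊆ D ∨ Disjoint (M s' y) D := by
  by_contra hcon
  rw [not_or] at hcon
  have h1 := two_le_mixed hy hcon.1 hcon.2
  have h2 : (mixed D s' y).Nonempty := card_pos.1 (by omega)
  obtain ⟨v, hv⟩ := h2
  have h3 := mixed_mono h hv
  have h4 : v ∈ Icc y (y + 2 ^ s') := by
    obtain ⟨⟨e, he, _, hi⟩, _⟩ := mem_mixed.1 hv
    exact inc_mem he hi
  exact disjoint_left.1 hd h4 h3

/-- there is a window without points of `R` -/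
theorem exists_window {R : Finset ℕ} {s x d : ℕ} (hx : 2 ^ s ∣ x) (hd : d ≤ s)
    (hR : 2 * R.card < 2 ^ d) : ∃ y, 2 ^ (s - d) ∣ y ∧ x ≤ y ∧ y + 2 ^ (s - d) ≤ x + 2 ^ s ∧
      Disjoint (Icc y (y + 2 ^ (s - d))) R := by
  classical
  obtain ⟨k, hk⟩ : ∃ k, k = 2 ^ (s - d) := ⟨_, rfl⟩
  have hk0 : 0 < k := by rw [hk]; positivity
  have hks : k * 2 ^ d = 2 ^ s := by
    rw [hk, ← pow_add]
    congr 1
    omega
  have h1 : ((R.biUnion fun v => ({(v - x) / k, (v - x) / k - 1} : Finset ℕ))).card < 2 ^ d := by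
    refine lt_of_le_of_lt card_biUnion_le (lt_of_le_of_lt (sum_le_card_nsmul R _ 2 ?_) ?_)
    · intro v _
      exact card_le_two
    · rw [smul_eq_mul, mul_comm]
      exact hR
  have h2 : ∃ i ∈ range (2 ^ d), i ∉ R.biUnion fun v => ({(v - x) / k, (v - x) / k - 1} : Finset ℕ) := by
    by_contra hcon
    push Not at hcon
    have := card_le_card (show range (2 ^ d) ⊆ _ from hcon)
    rw [card_range] at this
    omega
  obtain ⟨i, hi, hi'⟩ := h2
  rw [mem_range] at hi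
  refine ⟨x + k * i, ?_, by omega, ?_, ?_⟩
  · rw [← hk]
    refine Nat.dvd_add (dvd_trans ?_ hx) (dvd_mul_right _ _)
    rw [← hks]
    exact dvd_mul_right _ _
  · rw [← hk, ← hks]
    have : k * (i + 1) ≤ k * 2 ^ d := Nat.mul_le_mul_left k hi
    have e : k * (i + 1) = k * i + k := by ring
    omega
  · rw [← hk, disjoint_left]
    intro v hv hvR
    rw [mem_Icc] at hv
    apply hi'
    rw [mem_biUnion]
    refine ⟨v, hvR, ?_⟩
    rw [mem_insert, mem_singleton]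
    obtain ⟨w, hw⟩ : ∃ w, w = v - x := ⟨_, rfl⟩
    rw [← hw]
    have a1 : k * i ≤ w := by omega
    have a2 : w ≤ k * i + k := by omega
    rcases Nat.lt_or_ge w (k * i + k) with h3 | h3
    · left
      symm
      rw [Nat.div_eq_iff hk0]
      constructor
      · rw [mul_comm]; exact a1
      · rw [mul_comm i k]; omega
    · right
      have h4 : w = k * (i + 1) := by rw [mul_add, mul_one]; omega
      rw [h4, Nat.mul_div_cancel_left _ hk0]
      omega

end Pool.Agent.TH679.TG
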