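import Pool.Agent.TH679.TG.Rec
import Pool.Agent.TH679.TG.Sub
import Pool.Agent.TH679.SP.Model
import Pool.Agent.H564R3.SV.Main

/-!
The lower bound for programs whose monomials contain the labelled dyadic intervals
-/

set_option autoImplicit false

namespace Pool.Agent.TH679.TG

open Finset
open Pool.Agent.H564R3.PW (Instr runs exec syms)
open Pool.Agent.H564R3.TS
open Pool.Agent.H564R3.SV (hist_exch pow_clog_le C_g C_g_card)
open Pool.Agent.TH679.SP (cset ce pos cset_exact mixed_eq mem_biUnion_pos mem_cset)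

/-- the dyadic intervals inside of `[0, 2 ^ s]` -/
abbrev Dy (s : ℕ) : Type := {e : ℕ × ℕ // e ∈ M s 0}

theorem Dy.le {s : ℕ} (e : Dy s) : e.1.1 + 2 ^ e.1.2 ≤ 2 ^ s := by
  have h := mem_M.1 e.2
  have h1 := h.2.2.2
  rwa [zero_add] at h1

/-- the left end of an interval -/
def lf {s : ℕ} (e : Dy s) : Fin (2 ^ s + 1) := ⟨e.1.1, by
  have := e.le
  have : 1 ≤ 2 ^ e.1.2 := Nat.one_le_two_pow
  omega⟩

/-- the right end of an interval -/
def rt {s : ℕ} (e : Dy s) : Fin (2 ^ s + 1) := ⟨e.1.1 + 2 ^ e.1.2, by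
  have := e.le
  omega⟩

theorem law_dy {R ρ : Type} [Zero R] [Fintype ρ] [DecidableEq ρ] {s m : ℕ} (hm : 1 ≤ m)
    (p : List (Instr R (Dy s × Fin m × Fin m) ρ)) (o : ρ)
    (g1 : ∀ χ : Fin (2 ^ s + 1) → Fin m, ind (cset lf rt χ) ∈ syms p o)
    (g2 : ∀ u ∈ syms p o, ∃ χ : Fin (2 ^ s + 1) → Fin m, ∀ e, u (ce lf rt χ e) ≠ 0)
    (hp : 1 ≤ p.length) :
    (m ^ 2) ^ (s / 3) ≤
      2 * p.length * ((Nat.clog 2 p.length + 1) * Fintype.card ρ) ^ (s / 3) := by
  classical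
  set H := Nat.clog 2 p.length with hH
  set κ := s / 3 with hκ
  have hHT : 2 ^ H ≤ 2 * p.length := pow_clog_le _ hp
  rcases Nat.lt_or_ge (m ^ 2) ((H + 1) * Fintype.card ρ) with hlt | hge
  · calc (m ^ 2) ^ κ ≤ ((H + 1) * Fintype.card ρ) ^ κ := Nat.pow_le_pow_left hlt.le _
      _ = 1 * ((H + 1) * Fintype.card ρ) ^ κ := (one_mul _).symm
      _ ≤ _ := Nat.mul_le_mul_right _ (by omega)
  have hK : 1 ≤ Fintype.card ρ := Fintype.card_pos_iff.2 ⟨o⟩
  set F := (univ : Finset (Fin (2 ^ s + 1) → Fin m)).image (cset lf rt) with hF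
  have hFe : ∀ A ∈ F, Exact pos 1 univ A := by
    intro A hA
    rw [hF, mem_image] at hA
    obtain ⟨x, _, rfl⟩ := hA
    exact cset_exact _ _ x
  have hCov : Cov pos (syms p o) := by
    intro u hu e
    obtain ⟨χ, hχ⟩ := g2 u hu
    exact ⟨_, hχ e, by simp [pos, ce]⟩
  obtain ⟨z, hz, hex⟩ := hist_exch le_rfl p o hCov F hFe (by
    intro A hA
    rw [hF, mem_image] at hA
    obtain ⟨x, _, rfl⟩ := hA
    exact g1 x) (2 ^ H) (Nat.le_pow_clog (by norm_num) _)
  have c0 : Fin m := ⟨0, hm⟩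
  set lab : (Fin (2 ^ s + 1) → Fin m) → ℕ → Fin m :=
    fun ω g => if h : g < 2 ^ s + 1 then ω ⟨g, h⟩ else c0 with hlab
  obtain ⟨A, hA⟩ : ∃ A : (Fin (2 ^ s + 1) → Fin m) → Finset (Dy s × Fin m × Fin m),
    ∀ ω, A ω = cset lf rt ω := ⟨_, fun _ => rfl⟩
  have hAF : ∀ ω, A ω ∈ F := fun ω => by rw [hA]; exact mem_image_of_mem _ (mem_univ ω)
  obtain ⟨J, hJ⟩ : ∃ J : (Fin (2 ^ s + 1) → Fin m) → ℕ → ρ → Finset (ℕ × ℕ),
    ∀ ω t i, J ω t i = ((z (A ω) t i).biUnion pos).image Subtype.val := ⟨_, fun _ _ _ => rfl⟩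
  have hJM : ∀ ω t i, J ω t i ⊆ M s 0 := by
    intro ω t i e he
    rw [hJ, mem_image] at he
    obtain ⟨e', _, rfl⟩ := he
    exact e'.2
  have hJmem : ∀ ω t i (e : Dy s), e.1 ∈ J ω t i ↔ e ∈ (z (A ω) t i).biUnion pos := by
    intro ω t i e
    rw [hJ]
    constructor
    · intro h
      obtain ⟨e', h1, h2⟩ := mem_image.1 h
      rwa [← Subtype.ext h2]
    · exact fun h => mem_image_of_mem _ h
  have hne : ∀ ω t i, (J ω t i).Nonempty → (z (A ω) t i).Nonempty := by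
    intro ω t i h
    rw [nonempty_iff_ne_empty] at h ⊢
    intro h0
    apply h
    rw [hJ, h0]
    rfl
  have hc := rec_tg (ρ := ρ) (m := m) (s₀ := s) (x₀ := 0) (N := 2 ^ H) hm univ lab J (by
      intro ω _ a ha P hP
      obtain ⟨i, h1, h2⟩ := hP
      rcases (hz _ (hAF ω)).1.down a (by omega) i with ⟨j, hj⟩ | ⟨j, k, hj⟩ | hj
      · have h3 : J ω (a + 1) i = J ω a j := by rw [hJ, hJ, hj]
        rw [h3] at h1
        have h4 : Disjoint P P := disjoint_of_subset_left h1 (h2 j)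
        rw [disjoint_self_iff_empty] at h4
        rw [h4]
        simp
      · have h3 : J ω (a + 1) i = J ω a j ∪ J ω a k := by
          rw [hJ, hJ, hJ, hj, union_biUnion, image_union]
        rw [h3] at h1
        have h4 : Disjoint P P := disjoint_of_subset_left h1 (disjoint_union_left.2 ⟨h2 j, h2 k⟩)
        rw [disjoint_self_iff_empty] at h4
        rw [h4]
        simp
      · refine (card_le_card h1).trans ?_
        rw [hJ]
        refine card_image_le.trans (card_biUnion_le.trans ?_)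
        rw [Finset.sum_congr rfl fun y _ => show (pos y).card = 1 from card_singleton _]
        rw [Finset.sum_const, smul_eq_mul, mul_one]
        exact hj) (by
      intro ω _ ω' _ t ht i h1 h2
      rw [hJ, hJ, (hex _ (hAF ω) _ (hAF ω') t ht i (hne _ _ _ h1) (hne _ _ _ h2)).1]) (by
      intro ω _ t ht i h1 v hv ω' _ h2
      obtain ⟨⟨e, heM, heJ, hev⟩, ⟨e', heM', heJ', hev'⟩⟩ := hv
      have hvle : v < 2 ^ s + 1 := by
        have h5 := mem_Icc.1 (inc_mem heM hev)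
        omega
      obtain ⟨h3, h4⟩ := hex _ (hAF ω) _ (hAF ω') t ht i (hne _ _ _ h1) (hne _ _ _ h2)
      have s1 := (hz _ (hAF ω)).1.sub t ht i
      have s2 := (hz _ (hAF ω')).1.sub t ht i
      have b1 : (⟨e, heM⟩ : Dy s) ∈ (z (A ω) t i).biUnion pos := (hJmem ω t i ⟨e, heM⟩).1 heJ
      have b2 : (⟨e', heM'⟩ : Dy s) ∉ (z (A ω) t i).biUnion pos := fun h =>
        heJ' ((hJmem ω t i ⟨e', heM'⟩).2 h)
      rw [hA ω] at h3 h4 s1 b1 b2
      rw [hA ω'] at h3 h4 s2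
      have h5 := mixed_eq (u := lf) (v := rt) g2 ω ω' _ _ s1 s2 h3 h4 ⟨v, hvle⟩
        ⟨_, b1, by
          rcases hev with h | h
          · exact Or.inl (Fin.ext h)
          · exact Or.inr (Fin.ext h)⟩
        ⟨_, b2, by
          rcases hev' with h | h
          · exact Or.inl (Fin.ext h)
          · exact Or.inr (Fin.ext h)⟩
      rw [hlab]
      simp only [hvle, dif_pos]
      exact h5) hK H hge s 0 0 univ (by omega) le_rfl (dvd_zero _) le_rfl le_rfl (by
      intro ω _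
      refine ⟨mem_univ _, o, ?_, fun j => ?_⟩
      · intro e he
        rw [zero_add]
        refine (hJmem ω (2 ^ H) o ⟨e, he⟩).2 ?_
        rw [(hz _ (hAF ω)).2, hA, mem_biUnion_pos]
        exact ⟨ce lf rt ω ⟨e, he⟩, mem_image_of_mem _ (mem_univ _), rfl⟩
      · rw [hJ, (hz _ (hAF ω)).1.zero j]
        simp)
  have himg : ((univ : Finset (Fin (2 ^ s + 1) → Fin m)).image
      (C_g lab (Icc 0 (0 + 2 ^ s)))).card = m ^ (2 ^ s + 1) := by
    rw [card_image_of_injective, card_univ, Fintype.card_fun, Fintype.card_fin, Fintype.card_fin]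
    intro ω ω' h
    funext g
    have h1 : (g.val, lab ω g.val) ∈ C_g lab (Icc 0 (0 + 2 ^ s)) ω' := by
      rw [← h]
      refine mem_image.2 ⟨g.val, mem_Icc.2 ⟨by omega, ?_⟩, rfl⟩
      have := g.2
      omega
    obtain ⟨l', _, h2⟩ := mem_image.1 h1
    rw [Prod.mk.injEq] at h2
    have h3 := h2.2
    rw [h2.1, hlab] at h3
    simp only [g.2, dif_pos] at h3
    exact h3.symm
  rw [himg] at hc
  have hpos : 0 < m ^ (2 ^ s + 1) := Nat.pow_pos hm
  have h6 : (m ^ 2) ^ κ ≤ 2 ^ H * ((H + 1) * Fintype.card ρ) ^ κ := by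
    refine Nat.le_of_mul_le_mul_right (c := m ^ (2 ^ s + 1)) ?_ hpos
    rw [mul_comm ((m ^ 2) ^ κ)]
    exact hc
  exact h6.trans (Nat.mul_le_mul_right _ hHT)

end Pool.Agent.TH679.TG
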