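import Pool.Agent.TH679.TG.Tri
import Pool.Agent.TH679.TG.Dyad

/-!
The layout: triangulations which avoid the forbidden pairs are labellings
-/

set_option autoImplicit false

namespace Pool.Agent.TH679.TG

open Finset

/-- the point of the block `a` with the label `α` -/
def pt (m a α : ℕ) : ℕ := (2 * m + 2) * a + (2 + 2 * α)

/-- the pairs whose weights are set to 1 -/
def Neu (m Q n : ℕ) (e : ℕ × ℕ) : Prop :=
  (∃ a < Q, e.2 = (2 * m + 2) * (a + 1) ∧ (2 * m + 2) * a + 2 ≤ e.1) ∨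
  (∃ a < Q, e.1 = (2 * m + 2) * (a + 1) ∧ e.2 ≤ (2 * m + 2) * (a + 1) + 2 * m) ∨
  (e.1 = 0 ∧ e.2 ≤ 2 * m) ∨
  (e.2 = n ∧ (2 * m + 2) * Q + 2 ≤ e.1) ∨
  (∃ α < m, e.1 = pt m 0 α ∧ e.2 = n) ∨
  (e.1 = 0 ∧ e.2 = n)

/-- the pairs whose weights are kept -/
def Kept (m s : ℕ) (e : ℕ × ℕ) : Prop :=
  ∃ x ∈ M s 0, ∃ α < m, ∃ β < m, e.1 = pt m x.1 α ∧ e.2 = pt m (x.1 + 2 ^ x.2) β

theorem euc_le {G a b r r' : ℕ} (hr' : r' < G) (h : G * a + r ≤ G * b + r') : a ≤ b := by
  by_contra hcon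
  have h1 : G * (b + 1) ≤ G * a := Nat.mul_le_mul_left G (by omega)
  rw [mul_add, mul_one] at h1
  omega

theorem euc {G a b r r' : ℕ} (hr : r < G) (hr' : r' < G) (h : G * a + r = G * b + r') :
    a = b ∧ r = r' := by
  have h1 : a = b := le_antisymm (euc_le hr' h.le) (euc_le hr h.ge)
  subst h1
  exact ⟨rfl, by omega⟩

theorem pt_inj {m a b α β : ℕ} (hα : α < m) (hβ : β < m) (h : pt m a α = pt m b β) :
    a = b ∧ α = β := by
  unfold pt at h
  obtain ⟨h1, h2⟩ := euc (by omega) (by omega) h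
  exact ⟨h1, by omega⟩

theorem pt_ne {m a b α : ℕ} (hα : α < m) (h : pt m a α = (2 * m + 2) * b) : False := by
  unfold pt at h
  have h0 : (2 * m + 2) * a + (2 + 2 * α) = (2 * m + 2) * b + 0 := by rw [add_zero]; exact h
  obtain ⟨_, h2⟩ := euc (by omega) (by omega) h0
  omega

theorem pt_even (m a α : ℕ) : pt m a α % 2 = 0 := by
  unfold pt
  have h1 : (2 * m + 2) * a + (2 + 2 * α) = 2 * ((m + 1) * a + (1 + α)) := by ring
  rw [h1]
  omega

theorem cc_even (m a : ℕ) : ((2 * m + 2) * a) % 2 = 0 := by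
  have h1 : (2 * m + 2) * a = 2 * ((m + 1) * a) := by ring
  rw [h1]
  omega

section Main

variable {m s n : ℕ}

/-- the upper bound for the points -/
theorem pt_lt {a α : ℕ} (hα : α < m) (ha : a ≤ 2 ^ s) (hn : (2 * m + 2) * (2 ^ s + 1) ≤ n) :
    pt m a α + 2 ≤ n := by
  unfold pt
  have h1 : (2 * m + 2) * (a + 1) ≤ (2 * m + 2) * (2 ^ s + 1) := Nat.mul_le_mul_left _ (by omega)
  rw [mul_add, mul_one] at h1
  omega

theorem left_type {y α k : ℕ} (hα : α < m) (hy : pt m y α < k) (hk : k ≠ n)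
    (h : Kept m s (pt m y α, k) ∨ Neu m (2 ^ s) n (pt m y α, k)) :
    (∃ u, (y, u) ∈ M s 0 ∧ ∃ γ < m, k = pt m (y + 2 ^ u) γ) ∨ k = (2 * m + 2) * (y + 1) := by
  have h0 : 2 ≤ pt m y α := by unfold pt; omega
  rcases h with ⟨⟨x, u⟩, hx, α', hα', β, hβ, h1, h2⟩ | ⟨a, ha, h1, h2⟩ | ⟨a, ha, h1, h2⟩ | ⟨h1, h2⟩ |
    ⟨h1, h2⟩ | ⟨α', hα', h1, h2⟩ | ⟨h1, h2⟩
  · dsimp only at h1 h2
    obtain ⟨h3, h4⟩ := pt_inj hα hα' h1
    subst h3
    exact Or.inl ⟨u, hx, β, hβ, h2⟩
  · dsimp only at h1 h2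
    right
    have h3 : a ≤ y := by
      unfold pt at h2
      exact euc_le (by omega) h2
    have h4 : y ≤ a := by
      rw [h1] at hy
      unfold pt at hy
      by_contra hcon
      have : (2 * m + 2) * (a + 1) ≤ (2 * m + 2) * y := Nat.mul_le_mul_left _ (by omega)
      omega
    have : a = y := le_antisymm h3 h4
    subst this
    exact h1
  · dsimp only at h1 h2
    exact absurd h1 (fun h => pt_ne hα h)
  · dsimp only at h1 h2
    omega
  · exact absurd h1 hk
  · exact absurd h2 hk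
  · exact absurd h2 hk

theorem right_type {z β k : ℕ} (hβ : β < m) (hz : k < pt m z β) (hk : pt m z β ≠ n) (hk0 : k ≠ 0)
    (h : Kept m s (k, pt m z β) ∨ Neu m (2 ^ s) n (k, pt m z β)) :
    (∃ x u, (x, u) ∈ M s 0 ∧ x + 2 ^ u = z ∧ ∃ γ < m, k = pt m x γ) ∨ k = (2 * m + 2) * z := by
  rcases h with ⟨⟨x, u⟩, hx, α', hα', β', hβ', h1, h2⟩ | ⟨a, ha, h1, h2⟩ | ⟨a, ha, h1, h2⟩ |
    ⟨h1, h2⟩ | ⟨h1, h2⟩ | ⟨α', hα', h1, h2⟩ | ⟨h1, h2⟩
  · dsimp only at h1 h2
    obtain ⟨h3, h4⟩ := pt_inj hβ hβ' h2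
    exact Or.inl ⟨x, u, hx, h3.symm, α', hα', h1⟩
  · dsimp only at h1 h2
    exact absurd h1 (fun h => pt_ne hβ h)
  · dsimp only at h1 h2
    right
    have h3 : z ≤ a + 1 := by
      unfold pt at h2
      exact euc_le (by omega) h2
    have h4 : a + 1 ≤ z := by
      rw [h1] at hz
      unfold pt at hz
      have h5 : (2 * m + 2) * (a + 1) + 0 ≤ (2 * m + 2) * z + (2 + 2 * β) := by omega
      exact euc_le (by omega) h5
    have : a + 1 = z := le_antisymm h4 h3
    subst this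
    exact h1
  · exact absurd h1 hk0
  · exact absurd h1 hk
  · exact absurd h2 hk
  · exact absurd h2 hk

theorem two_pow_eq {u v t : ℕ} (h : 2 ^ u + 2 ^ v = 2 ^ (t + 1)) : u = t ∧ v = t := by
  have hu : 2 ^ u < 2 ^ (t + 1) := by
    have : 0 < 2 ^ v := by positivity
    omega
  have hv : 2 ^ v < 2 ^ (t + 1) := by
    have : 0 < 2 ^ u := by positivity
    omega
  have hu' : u < t + 1 := (Nat.pow_lt_pow_iff_right (by norm_num)).1 hu
  have hv' : v < t + 1 := (Nat.pow_lt_pow_iff_right (by norm_num)).1 hv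
  have hu2 : 2 ^ u ≤ 2 ^ t := Nat.pow_le_pow_right (by norm_num) (by omega)
  have hv2 : 2 ^ v ≤ 2 ^ t := Nat.pow_le_pow_right (by norm_num) (by omega)
  have h2 : 2 ^ (t + 1) = 2 ^ t + 2 ^ t := by rw [pow_succ]; ring
  have hu3 : 2 ^ u = 2 ^ t := by omega
  have hv3 : 2 ^ v = 2 ^ t := by omega
  exact ⟨Nat.pow_right_injective le_rfl hu3, Nat.pow_right_injective le_rfl hv3⟩

/-- the pair of a dyadic interval for a labelling -/
def dg (m : ℕ) (χ : ℕ → ℕ) (x : ℕ × ℕ) : ℕ × ℕ :=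
  (pt m x.1 (χ x.1), pt m (x.1 + 2 ^ x.2) (χ (x.1 + 2 ^ x.2)))

/-- every triangulation of an interval which uses only allowed pairs is a labelling -/
theorem claim (hn : (2 * m + 2) * (2 ^ s + 1) ≤ n) : ∀ (t y α β : ℕ) (A : Finset (ℕ × ℕ)),
    t ≤ s → 2 ^ t ∣ y → y + 2 ^ t ≤ 2 ^ s → α < m → β < m →
    Tri (pt m y α) (pt m (y + 2 ^ t) β) A →
    (∀ e ∈ A, Kept m s e ∨ Neu m (2 ^ s) n e) →
    ∃ χ : ℕ → ℕ, (∀ v, χ v < m) ∧ χ y = α ∧ χ (y + 2 ^ t) = β ∧ ∀ x ∈ M t y, dg m χ x ∈ A := by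
  intro t
  induction t with
  | zero =>
    intro y α β A ht hy hys hα hβ hA hAll
    refine ⟨fun v => if v ≤ y then α else β, ?_, ?_, ?_, ?_⟩
    · intro v
      dsimp only
      split_ifs
      · exact hα
      · exact hβ
    · simp
    · dsimp only
      rw [if_neg (by rw [pow_zero]; omega)]
    · intro x hx
      rw [M_zero, mem_singleton] at hx
      subst hx
      unfold dg
      dsimp only
      rw [if_pos le_rfl, if_neg (by rw [pow_zero]; omega)]
      refine hA.top ?_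
      unfold pt
      rw [pow_zero, mul_add, mul_one]
      omega
  | succ t ih =>
    intro y α β A ht hy hys hα hβ hA hAll
    have h2t : 2 ^ (t + 1) = 2 ^ t + 2 ^ t := by rw [pow_succ]; ring
    have hp : 1 ≤ 2 ^ t := Nat.one_le_two_pow
    have hy' : 2 ^ t ∣ y := (pow_dvd_pow 2 (Nat.le_succ t)).trans hy
    have hlen : pt m y α + 2 < pt m (y + 2 ^ (t + 1)) β := by
      unfold pt
      have h1 : (2 * m + 2) * (y + 1) ≤ (2 * m + 2) * (y + 2 ^ (t + 1)) :=
        Nat.mul_le_mul_left _ (by omega)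
      rw [mul_add _ y 1, mul_one] at h1
      omega
    have hzn : pt m (y + 2 ^ (t + 1)) β + 2 ≤ n := pt_lt hβ hys hn
    obtain ⟨k, B, C, hB, hC, rfl⟩ := hA.apex (by omega)
    have b1 := hB.lt
    have b2 := hC.lt
    have b0 : 2 ≤ pt m y α := by unfold pt; omega
    have hBall : ∀ e ∈ B, Kept m s e ∨ Neu m (2 ^ s) n e := fun e he =>
      hAll e (mem_insert_of_mem (mem_union_left _ he))
    have hCall : ∀ e ∈ C, Kept m s e ∨ Neu m (2 ^ s) n e := fun e he =>
      hAll e (mem_insert_of_mem (mem_union_right _ he))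
    have hL : pt m y α + 2 ≤ k → (∃ u, (y, u) ∈ M s 0 ∧ ∃ γ < m, k = pt m (y + 2 ^ u) γ) ∨
        k = (2 * m + 2) * (y + 1) := fun h =>
      left_type hα b1 (by omega) (hBall _ (hB.top h))
    have hR : k + 2 ≤ pt m (y + 2 ^ (t + 1)) β → (∃ x u, (x, u) ∈ M s 0 ∧
        x + 2 ^ u = y + 2 ^ (t + 1) ∧ ∃ γ < m, k = pt m x γ) ∨
        k = (2 * m + 2) * (y + 2 ^ (t + 1)) := fun h =>
      right_type hβ b2 (by omega) (by omega) (hCall _ (hC.top h))
    have hk : ∃ γ < m, k = pt m (y + 2 ^ t) γ := by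
      have ev1 := pt_even m y α
      have ev2 := pt_even m (y + 2 ^ (t + 1)) β
      rcases Nat.lt_or_ge k (pt m y α + 2) with h1 | h1
      · exfalso
        rcases hR (by omega) with ⟨x, u, _, _, γ, _, h2⟩ | h2
        · have := pt_even m x γ
          omega
        · have := cc_even m (y + 2 ^ (t + 1))
          omega
      · rcases Nat.lt_or_ge (pt m (y + 2 ^ (t + 1)) β) (k + 2) with h3 | h3
        · exfalso
          rcases hL h1 with ⟨u, _, γ, _, h2⟩ | h2
          · have := pt_even m (y + 2 ^ u) γ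
            omega
          · have := cc_even m (y + 1)
            omega
        · rcases hL h1 with ⟨u, _, γ, hγ, h2⟩ | h2
          · rcases hR h3 with ⟨x, v, _, hxv, γ', hγ', h4⟩ | h4
            · obtain ⟨h5, h6⟩ := pt_inj hγ hγ' (h2.symm.trans h4)
              have h7 : 2 ^ u + 2 ^ v = 2 ^ (t + 1) := by omega
              obtain ⟨h8, _⟩ := two_pow_eq h7
              subst h8
              exact ⟨γ, hγ, h2⟩
            · exact absurd (h2.symm.trans h4) (fun h => pt_ne hγ h)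
          · rcases hR h3 with ⟨x, v, _, hxv, γ', hγ', h4⟩ | h4
            · exact absurd (h4.symm.trans h2) (fun h => pt_ne hγ' h)
            · exfalso
              have h5 := h2.symm.trans h4
              have h6 : y + 1 = y + 2 ^ (t + 1) :=
                Nat.eq_of_mul_eq_mul_left (by omega) h5
              omega
    obtain ⟨γ, hγ, rfl⟩ := hk
    have hys' : y + 2 ^ t + 2 ^ t = y + 2 ^ (t + 1) := by omega
    obtain ⟨χ₁, c1, c2, c3, c4⟩ := ih y α γ B (by omega) hy' (by omega) hα hγ hB hBall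
    obtain ⟨χ₂, d1, d2, d3, d4⟩ := ih (y + 2 ^ t) γ β C (by omega)
      (Nat.dvd_add hy' (dvd_refl _)) (by omega) hγ hβ (by rw [hys']; exact hC) hCall
    rw [hys'] at d3
    refine ⟨fun v => if v ≤ y + 2 ^ t then χ₁ v else χ₂ v, ?_, ?_, ?_, ?_⟩
    · intro v
      dsimp only
      split_ifs
      · exact c1 v
      · exact d1 v
    · dsimp only
      rw [if_pos (by omega)]
      exact c2
    · dsimp only
      rw [if_neg (by omega)]
      exact d3
    · have e1 : ∀ v, v ≤ y + 2 ^ t → (if v ≤ y + 2 ^ t then χ₁ v else χ₂ v) = χ₁ v := by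
        intro v hv
        rw [if_pos hv]
      have e2 : ∀ v, y + 2 ^ t ≤ v → (if v ≤ y + 2 ^ t then χ₁ v else χ₂ v) = χ₂ v := by
        intro v hv
        split_ifs with h
        · have : v = y + 2 ^ t := le_antisymm h hv
          rw [this, c3, d2]
        · rfl
      intro x hx
      rw [M_succ hy, mem_insert, mem_union] at hx
      rcases hx with rfl | hx | hx
      · refine mem_insert.2 (Or.inl ?_)
        unfold dg
        dsimp only
        rw [e1 y (by omega), e2 (y + 2 ^ (t + 1)) (by omega), c2, d3]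
      · have h1 := mem_M.1 hx
        have h2 := c4 x hx
        refine mem_insert_of_mem (mem_union_left _ ?_)
        unfold dg at h2 ⊢
        dsimp only
        rw [e1 x.1 (by have : 0 < 2 ^ x.2 := by positivity
                       omega), e1 (x.1 + 2 ^ x.2) (by omega)]
        exact h2
      · have h1 := mem_M.1 hx
        have h2 := d4 x hx
        refine mem_insert_of_mem (mem_union_right _ ?_)
        unfold dg at h2 ⊢
        dsimp only
        rw [e2 x.1 (by omega), e2 (x.1 + 2 ^ x.2) (by omega)]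
        exact h2

/-- every triangulation which uses only allowed pairs contains the pairs of a labelling -/
theorem exists_label (hm : 1 ≤ m) (hn : (2 * m + 2) * (2 ^ s + 1) ≤ n) {A : Finset (ℕ × ℕ)}
    (hA : Tri 0 n A) (hAll : ∀ e ∈ A, Kept m s e ∨ Neu m (2 ^ s) n e) :
    ∃ χ : ℕ → ℕ, (∀ v, χ v < m) ∧ ∀ x ∈ M s 0, dg m χ x ∈ A := by
  obtain ⟨Q, hQ⟩ : ∃ Q, Q = 2 ^ s := ⟨_, rfl⟩
  have hQ1 : 1 ≤ Q := by rw [hQ]; exact Nat.one_le_two_pow
  have hn' : (2 * m + 2) * Q + (2 * m + 2) ≤ n := by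
    rw [hQ]
    rw [mul_add, mul_one] at hn
    exact hn
  have hGQ : (2 * m + 2) * 1 ≤ (2 * m + 2) * Q := Nat.mul_le_mul_left _ hQ1
  rw [mul_one] at hGQ
  have hMx : ∀ x ∈ M s 0, x.1 + 2 ^ x.2 ≤ Q := by
    intro x hx
    have := (mem_M.1 hx).2.2.2
    rwa [zero_add, ← hQ] at this
  have hnotK : ∀ k, ¬ Kept m s (k, n) := by
    rintro k ⟨x, hx, α, hα, β, hβ, h1, h2⟩
    dsimp only at h2
    have := pt_lt (n := n) (a := x.1 + 2 ^ x.2) hβ (by rw [← hQ]; exact hMx x hx) hn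
    omega
  have hnot1 : ∀ a, a < Q → n ≠ (2 * m + 2) * (a + 1) := by
    intro a ha h
    have : (2 * m + 2) * (a + 1) ≤ (2 * m + 2) * Q := Nat.mul_le_mul_left _ ha
    omega
  obtain ⟨k₀, B, C, hB, hC, rfl⟩ := hA.apex (by omega)
  have b1 := hB.lt
  have b2 := hC.lt
  have hBall : ∀ e ∈ B, Kept m s e ∨ Neu m (2 ^ s) n e := fun e he =>
    hAll e (mem_insert_of_mem (mem_union_left _ he))
  have hCall : ∀ e ∈ C, Kept m s e ∨ Neu m (2 ^ s) n e := fun e he =>
    hAll e (mem_insert_of_mem (mem_union_right _ he))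
  -- the first apex
  have hk0 : k₀ ≤ 2 * m := by
    rcases Nat.lt_or_ge k₀ 2 with h | h
    · omega
    · have h1 := hBall _ (hB.top (by omega))
      rcases h1 with ⟨x, hx, α', hα', β', hβ', h1, h2⟩ | ⟨a, ha, h1, h2⟩ | ⟨a, ha, h1, h2⟩ |
        ⟨h1, h2⟩ | ⟨h1, h2⟩ | ⟨α', hα', h1, h2⟩ | ⟨h1, h2⟩
      · dsimp only at h1
        unfold pt at h1
        omega
      · dsimp only at h2
        omega
      · dsimp only at h1
        rw [mul_add, mul_one] at h1
        omega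
      · exact h2
      · dsimp only at h2
        omega
      · dsimp only at h1
        unfold pt at h1
        omega
      · dsimp only at h2
        omega
  have hk0' : ∃ α < m, k₀ = pt m 0 α := by
    have h1 := hCall _ (hC.top (by omega))
    rcases h1 with h1 | ⟨a, ha, h1, h2⟩ | ⟨a, ha, h1, h2⟩ |
      ⟨h1, h2⟩ | ⟨h1, h2⟩ | ⟨α', hα', h1, h2⟩ | ⟨h1, h2⟩
    · exact absurd h1 (hnotK _)
    · exact absurd h1 (hnot1 a (by rw [hQ]; exact ha))
    · dsimp only at h1
      rw [mul_add, mul_one] at h1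
      omega
    · dsimp only at h1
      omega
    · dsimp only at h2
      rw [← hQ] at h2
      omega
    · exact ⟨α', hα', h1⟩
    · dsimp only at h1
      omega
  obtain ⟨α, hα, rfl⟩ := hk0'
  have hp0 : pt m 0 α = 2 + 2 * α := by unfold pt; omega
  -- the second apex
  obtain ⟨k₁, B', C', hB', hC', rfl⟩ := hC.apex (by omega)
  have b3 := hB'.lt
  have b4 := hC'.lt
  have hB'all : ∀ e ∈ B', Kept m s e ∨ Neu m (2 ^ s) n e := fun e he =>
    hCall e (mem_insert_of_mem (mem_union_left _ he))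
  have hC'all : ∀ e ∈ C', Kept m s e ∨ Neu m (2 ^ s) n e := fun e he =>
    hCall e (mem_insert_of_mem (mem_union_right _ he))
  have hL : pt m 0 α + 2 ≤ k₁ → (∃ u, (0, u) ∈ M s 0 ∧ ∃ γ < m, k₁ = pt m (0 + 2 ^ u) γ) ∨
      k₁ = (2 * m + 2) * (0 + 1) := fun h =>
    left_type hα b3 (by omega) (hB'all _ (hB'.top h))
  have hk1 : (2 * m + 2) * Q + 2 ≤ k₁ := by
    rcases Nat.lt_or_ge n (k₁ + 2) with h | h
    · omega
    · have h1 := hC'all _ (hC'.top h)
      rcases h1 with h1 | ⟨a, ha, h1, h2⟩ | ⟨a, ha, h1, h2⟩ |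
        ⟨h1, h2⟩ | ⟨h1, h2⟩ | ⟨α', hα', h1, h2⟩ | ⟨h1, h2⟩
      · exact absurd h1 (hnotK _)
      · exact absurd h1 (hnot1 a (by rw [hQ]; exact ha))
      · dsimp only at h2
        have : (2 * m + 2) * (a + 1) ≤ (2 * m + 2) * Q := Nat.mul_le_mul_left _ (by rw [hQ]; exact ha)
        omega
      · dsimp only at h1
        omega
      · dsimp only at h2
        rw [← hQ] at h2
        exact h2
      · exfalso
        dsimp only at h1
        have h3 : pt m 0 α + 2 ≤ k₁ := by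
          rw [h1] at b3 ⊢
          unfold pt at b3 ⊢
          omega
        rcases hL h3 with ⟨u, _, γ, hγ, h4⟩ | h4
        · rw [h1] at h4
          have h5 := (pt_inj hα' hγ h4).1
          have : 0 < 2 ^ u := by positivity
          omega
        · rw [h1] at h4
          exact pt_ne hα' h4
      · dsimp only at h1
        omega
  have hk1' : ∃ γ < m, k₁ = pt m (0 + 2 ^ s) γ := by
    rcases hL (by omega) with ⟨u, hu, γ, hγ, h4⟩ | h4
    · have h5 : Q ≤ 0 + 2 ^ u := by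
        rw [h4] at hk1
        unfold pt at hk1
        exact euc_le (by omega) hk1
      have h6 := hMx _ hu
      dsimp only at h6
      have h7 : 0 + 2 ^ u = 0 + 2 ^ s := by omega
      rw [h7] at h4
      exact ⟨γ, hγ, h4⟩
    · exfalso
      omega
  obtain ⟨γ, hγ, rfl⟩ := hk1'
  obtain ⟨χ, c1, _, _, c4⟩ := claim hn s 0 α γ B' le_rfl (dvd_zero _) (by omega) hα hγ hB' hB'all
  refine ⟨χ, c1, fun x hx => ?_⟩
  exact mem_insert_of_mem (mem_union_right _ (mem_insert_of_mem (mem_union_left _ (c4 x hx))))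

/-! ### canonical triangulations -/

theorem fanR : ∀ (l i : ℕ), ∃ A, Tri i (i + l + 1) A ∧ ∀ e ∈ A, e.2 = i + l + 1 ∧ i ≤ e.1 := by
  intro l
  induction l with
  | zero => intro i; exact ⟨∅, Tri.unit i, by simp⟩
  | succ l ih =>
    intro i
    obtain ⟨A, h1, h2⟩ := ih (i + 1)
    have e : i + 1 + l + 1 = i + (l + 1) + 1 := by omega
    rw [e] at h1 h2
    refine ⟨_, Tri.node i (i + 1) _ _ _ (Tri.unit i) h1, ?_⟩
    intro x hx
    rw [mem_insert, mem_union] at hx
    rcases hx with rfl | hx | hx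
    · exact ⟨rfl, le_rfl⟩
    · exact absurd hx (notMem_empty _)
    · have := h2 x hx
      omega

theorem fanL : ∀ (l i : ℕ), ∃ A, Tri i (i + l + 1) A ∧ ∀ e ∈ A, e.1 = i ∧ e.2 ≤ i + l + 1 := by
  intro l
  induction l with
  | zero => intro i; exact ⟨∅, Tri.unit i, by simp⟩
  | succ l ih =>
    intro i
    obtain ⟨A, h1, h2⟩ := ih i
    refine ⟨_, Tri.node i (i + l + 1) _ _ _ h1 (Tri.unit (i + l + 1)), ?_⟩
    intro x hx
    rw [mem_insert, mem_union] at hx
    rcases hx with rfl | hx | hx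
    · exact ⟨rfl, by dsimp only; omega⟩
    · have := h2 x hx
      omega
    · exact absurd hx (notMem_empty _)

theorem fanR' {i j : ℕ} (h : i < j) : ∃ A, Tri i j A ∧ ∀ e ∈ A, e.2 = j ∧ i ≤ e.1 := by
  have := fanR (j - i - 1) i
  have e : i + (j - i - 1) + 1 = j := by omega
  rwa [e] at this

theorem fanL' {i j : ℕ} (h : i < j) : ∃ A, Tri i j A ∧ ∀ e ∈ A, e.1 = i ∧ e.2 ≤ j := by
  have := fanL (j - i - 1) i
  have e : i + (j - i - 1) + 1 = j := by omega
  rwa [e] at this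

theorem canon (χ : ℕ → ℕ) (hχ : ∀ v, χ v < m) : ∀ (t y : ℕ), 2 ^ t ∣ y → y + 2 ^ t ≤ 2 ^ s →
    ∃ A, Tri (pt m y (χ y)) (pt m (y + 2 ^ t) (χ (y + 2 ^ t))) A ∧
      (∀ x ∈ M t y, dg m χ x ∈ A) ∧
      ∀ e ∈ A, (∃ x ∈ M t y, e = dg m χ x) ∨ Neu m (2 ^ s) n e := by
  intro t
  induction t with
  | zero =>
    intro y hy hys
    rw [pow_zero] at hys ⊢
    have c1 : pt m y (χ y) < (2 * m + 2) * (y + 1) := by
      have := hχ y
      unfold pt
      rw [mul_add, mul_one]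
      omega
    have c2 : (2 * m + 2) * (y + 1) < pt m (y + 1) (χ (y + 1)) := by
      unfold pt
      omega
    obtain ⟨B, hB, hB'⟩ := fanR' c1
    obtain ⟨C, hC, hC'⟩ := fanL' c2
    refine ⟨_, Tri.node _ _ _ _ _ hB hC, ?_, ?_⟩
    · intro x hx
      rw [M_zero, mem_singleton] at hx
      subst hx
      exact mem_insert_self _ _
    · intro e he
      rw [mem_insert, mem_union] at he
      rcases he with rfl | he | he
      · left
        refine ⟨(y, 0), ?_, rfl⟩
        rw [M_zero, mem_singleton]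
      · right
        obtain ⟨h1, h2⟩ := hB' e he
        refine Or.inl ⟨y, by omega, h1, le_trans ?_ h2⟩
        unfold pt
        omega
      · right
        obtain ⟨h1, h2⟩ := hC' e he
        refine Or.inr (Or.inl ⟨y, by omega, h1, h2.trans ?_⟩)
        have := hχ (y + 1)
        unfold pt
        omega
  | succ t ih =>
    intro y hy hys
    have h2t : 2 ^ (t + 1) = 2 ^ t + 2 ^ t := by rw [pow_succ]; ring
    have hy' : 2 ^ t ∣ y := (pow_dvd_pow 2 (Nat.le_succ t)).trans hy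
    have hys' : y + 2 ^ t + 2 ^ t = y + 2 ^ (t + 1) := by omega
    obtain ⟨B, b1, b2, b3⟩ := ih y hy' (by omega)
    obtain ⟨C, c1, c2, c3⟩ := ih (y + 2 ^ t) (Nat.dvd_add hy' (dvd_refl _)) (by omega)
    rw [hys'] at c1
    refine ⟨_, Tri.node _ _ _ _ _ b1 c1, ?_, ?_⟩
    · intro x hx
      rw [M_succ hy, mem_insert, mem_union] at hx
      rcases hx with rfl | hx | hx
      · exact mem_insert_self _ _
      · exact mem_insert_of_mem (mem_union_left _ (b2 x hx))
      · exact mem_insert_of_mem (mem_union_right _ (c2 x hx))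
    · intro e he
      rw [M_succ hy]
      rw [mem_insert, mem_union] at he
      rcases he with rfl | he | he
      · exact Or.inl ⟨_, mem_insert_self _ _, rfl⟩
      · rcases b3 e he with ⟨x, hx, h⟩ | h
        · exact Or.inl ⟨x, mem_insert_of_mem (mem_union_left _ hx), h⟩
        · exact Or.inr h
      · rcases c3 e he with ⟨x, hx, h⟩ | h
        · exact Or.inl ⟨x, mem_insert_of_mem (mem_union_right _ hx), h⟩
        · exact Or.inr h

/-- the canonical triangulation of a labelling -/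
theorem exists_tri (hn : (2 * m + 2) * (2 ^ s + 1) ≤ n) (χ : ℕ → ℕ)
    (hχ : ∀ v, χ v < m) : ∃ A, Tri 0 n A ∧ (∀ x ∈ M s 0, dg m χ x ∈ A) ∧
      ∀ e ∈ A, (∃ x ∈ M s 0, e = dg m χ x) ∨ Neu m (2 ^ s) n e := by
  obtain ⟨B, b1, b2, b3⟩ := canon (n := n) (s := s) χ hχ s 0 (dvd_zero _) (by omega)
  have h0 : 0 < pt m 0 (χ 0) := by unfold pt; omega
  have h1 : pt m (0 + 2 ^ s) (χ (0 + 2 ^ s)) < n := by
    have := pt_lt (n := n) (a := 0 + 2 ^ s) (s := s) (hχ (0 + 2 ^ s)) (by omega) hn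
    omega
  obtain ⟨C, c1, c2⟩ := fanL' h0
  obtain ⟨D, d1, d2⟩ := fanR' h1
  refine ⟨_, Tri.node _ _ _ _ _ c1 (Tri.node _ _ _ _ _ b1 d1), ?_, ?_⟩
  · intro x hx
    exact mem_insert_of_mem (mem_union_right _ (mem_insert_of_mem (mem_union_left _ (b2 x hx))))
  · intro e he
    rw [mem_insert, mem_union, mem_insert, mem_union] at he
    rcases he with rfl | he | rfl | he | he
    · right
      exact Or.inr (Or.inr (Or.inr (Or.inr (Or.inr ⟨rfl, rfl⟩))))
    · right
      obtain ⟨h2, h3⟩ := c2 e he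
      refine Or.inr (Or.inr (Or.inl ⟨h2, h3.trans ?_⟩))
      have := hχ 0
      unfold pt
      omega
    · right
      exact Or.inr (Or.inr (Or.inr (Or.inr (Or.inl ⟨χ 0, hχ 0, rfl, rfl⟩))))
    · exact b3 e he
    · right
      obtain ⟨h2, h3⟩ := d2 e he
      refine Or.inr (Or.inr (Or.inr (Or.inl ⟨h2, le_trans ?_ h3⟩)))
      unfold pt
      rw [zero_add]
      omega

/-- kept pairs are not neutral -/
theorem kept_not_neu (hn : (2 * m + 2) * (2 ^ s + 1) ≤ n) {e : ℕ × ℕ} (hk : Kept m s e) :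
    ¬ Neu m (2 ^ s) n e := by
  obtain ⟨x, hx, α, hα, β, hβ, h1, h2⟩ := hk
  have hx' : x.1 + 2 ^ x.2 ≤ 2 ^ s := by
    have := (mem_M.1 hx).2.2.2
    rwa [zero_add] at this
  have h3 := pt_lt hβ hx' hn
  have h4 : 2 ≤ e.1 := by rw [h1]; unfold pt; omega
  rintro (⟨a, ha, h5, h6⟩ | ⟨a, ha, h5, h6⟩ | ⟨h5, h6⟩ | ⟨h5, h6⟩ | ⟨α', hα', h5, h6⟩ | ⟨h5, h6⟩)
  · rw [h2] at h5
    exact pt_ne hβ h5
  · rw [h1] at h5
    exact pt_ne hα h5
  · omega
  · omega
  · omega
  · omega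

end Main

end Pool.Agent.TH679.TG
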