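import Pool.Agent.TH679.TG.Law
import Pool.Agent.TH679.TG.Lay
import Pool.Agent.H564R3.SV.Good

/-!
The lower bound for programs which compute optimal triangulations
-/

set_option autoImplicit false

namespace Pool.Agent.TH679.TG

open Finset
open scoped NNReal
open Pool.Agent.H564R3.PW (Instr runs exec syms)
open Pool.Agent.H564R3.TS
open Pool.Agent.H564R3.SV (good_trop_sum)
open Pool.Agent.TH679.SP (cset ce mem_cset)

/-- the variable of a pair of points of `0, ..., n` -/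
def emb (n : ℕ) (e : ℕ × ℕ) : Fin (n + 1) × Fin (n + 1) :=
  (Fin.ofNat (n + 1) e.1, Fin.ofNat (n + 1) e.2)

/-- The value of the whole interval `[0, n]`: the sum over all triangulations of a convex polygon
with the vertices `0, ..., n` of the product of the weights of the pairs `(i, j)`, `i + 2 ≤ j`, of
the triangulation. -/
def polygon (n : ℕ) {R : Type} [CommSemiring R] (w : Fin (n + 1) × Fin (n + 1) → R) : R :=
  val (fun i j => w (emb n (i, j))) n 0

theorem emb_val {n : ℕ} {e : ℕ × ℕ} (h1 : e.1 ≤ n) (h2 : e.2 ≤ n) :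
    ((emb n e).1.val, (emb n e).2.val) = e := by
  apply Prod.ext
  · show e.1 % (n + 1) = e.1
    exact Nat.mod_eq_of_lt (by omega)
  · show e.2 % (n + 1) = e.2
    exact Nat.mod_eq_of_lt (by omega)

theorem emb_of_val {n : ℕ} (x : Fin (n + 1) × Fin (n + 1)) : emb n (x.1.val, x.2.val) = x := by
  apply Prod.ext
  · apply Fin.ext
    show x.1.val % (n + 1) = x.1.val
    exact Nat.mod_eq_of_lt x.1.2
  · apply Fin.ext
    show x.2.val % (n + 1) = x.2.val
    exact Nat.mod_eq_of_lt x.2.2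

theorem emb_inj {n : ℕ} {e e' : ℕ × ℕ} (h1 : e.1 ≤ n) (h2 : e.2 ≤ n) (h3 : e'.1 ≤ n)
    (h4 : e'.2 ≤ n) (h : emb n e = emb n e') : e = e' := by
  rw [← emb_val h1 h2, h, emb_val h3 h4]

theorem Tri.le {i j : ℕ} {A : Finset (ℕ × ℕ)} (h : Tri i j A) {e : ℕ × ℕ} (he : e ∈ A) :
    e.1 ≤ j ∧ e.2 ≤ j := by
  have := h.inside e he
  omega

/-- the triangulations, as sets of variables -/
def fam (n : ℕ) : Finset (Finset (Fin (n + 1) × Fin (n + 1))) :=
  (tris n 0).image fun A => A.image (emb n)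

theorem mem_fam {n : ℕ} (hn : 1 ≤ n) {B : Finset (Fin (n + 1) × Fin (n + 1))} :
    B ∈ fam n ↔ ∃ A, Tri 0 n A ∧ B = A.image (emb n) := by
  unfold fam
  rw [mem_image]
  constructor
  · rintro ⟨A, hA, rfl⟩
    have h := (mem_tris hn).1 hA
    rw [zero_add] at h
    exact ⟨A, h, rfl⟩
  · rintro ⟨A, hA, rfl⟩
    exact ⟨A, (mem_tris hn).2 (by rw [zero_add]; exact hA), rfl⟩

theorem mem_image_emb {n : ℕ} {A : Finset (ℕ × ℕ)} (hA : Tri 0 n A) {e : ℕ × ℕ} (h1 : e.1 ≤ n)
    (h2 : e.2 ≤ n) : emb n e ∈ A.image (emb n) ↔ e ∈ A := by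
  constructor
  · intro h
    obtain ⟨e', he', h3⟩ := mem_image.1 h
    rw [← emb_inj (hA.le he').1 (hA.le he').2 h1 h2 h3]
    exact he'
  · exact fun h => mem_image_of_mem _ h

theorem polygon_eq {n : ℕ} (hn : 1 ≤ n) {R : Type} [CommSemiring R]
    (w : Fin (n + 1) × Fin (n + 1) → R) : polygon n w = ∑ A ∈ fam n, ∏ x ∈ A, w x := by
  unfold polygon fam
  rw [val_eq _ _ hn, sum_image]
  · refine sum_congr rfl fun A hA => ?_
    have h := (mem_tris hn).1 hA
    rw [zero_add] at h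
    rw [prod_image]
    intro e he e' he' hee
    exact emb_inj (h.le he).1 (h.le he).2 (h.le he').1 (h.le he').2 hee
  · intro A hA A' hA' h
    have h1 := (mem_tris hn).1 hA
    have h2 := (mem_tris hn).1 hA'
    rw [zero_add] at h1 h2
    dsimp only at h
    ext e
    constructor
    · intro he
      rw [← mem_image_emb h2 (h1.le he).1 (h1.le he).2, ← h]
      exact mem_image_of_mem _ he
    · intro he
      rw [← mem_image_emb h1 (h2.le he).1 (h2.le he).2, h]
      exact mem_image_of_mem _ he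

theorem fam_card {n : ℕ} (hn : 1 ≤ n) : ∀ B ∈ fam n, B.card = n - 1 := by
  intro B hB
  obtain ⟨A, hA, rfl⟩ := (mem_fam hn).1 hB
  rw [card_image_of_injOn]
  · have := hA.card
    omega
  · intro e he e' he' hee
    exact emb_inj (hA.le he).1 (hA.le he).2 (hA.le he').1 (hA.le he').2 hee

theorem fam_nonempty {n : ℕ} (hn : 1 ≤ n) : (fam n).Nonempty := by
  obtain ⟨A, hA, _⟩ := fanL' (show 0 < n by omega)
  exact ⟨_, (mem_fam hn).2 ⟨A, hA, rfl⟩⟩

section Classes

variable {m s n : ℕ}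

/-- the pair of a labelled dyadic interval -/
def dia (y : Dy s × Fin m × Fin m) : ℕ × ℕ :=
  (pt m y.1.1.1 y.2.1.val, pt m (y.1.1.1 + 2 ^ y.1.1.2) y.2.2.val)

theorem dia_inj : Function.Injective (dia (m := m) (s := s)) := by
  rintro ⟨⟨⟨x, u⟩, hx⟩, α, β⟩ ⟨⟨⟨x', u'⟩, hx'⟩, α', β'⟩ h
  unfold dia at h
  rw [Prod.mk.injEq] at h
  dsimp only at h
  obtain ⟨h1, h2⟩ := pt_inj α.2 α'.2 h.1
  obtain ⟨h3, h4⟩ := pt_inj β.2 β'.2 h.2
  subst h1
  have h5 : u = u' := Nat.pow_right_injective le_rfl (show 2 ^ u = 2 ^ u' by omega)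
  subst h5
  have h6 : α = α' := Fin.ext h2
  have h7 : β = β' := Fin.ext h4
  rw [h6, h7]

theorem dia_le (hn : (2 * m + 2) * (2 ^ s + 1) ≤ n) (y : Dy s × Fin m × Fin m) :
    (dia y).1 ≤ n ∧ (dia y).2 ≤ n := by
  have h1 := y.1.le
  have h2 : 1 ≤ 2 ^ y.1.1.2 := Nat.one_le_two_pow
  have h3 := pt_lt (a := y.1.1.1) y.2.1.2 (by omega) hn
  have h4 := pt_lt y.2.2.2 h1 hn
  unfold dia
  dsimp only
  omega

theorem kept_iff {e : ℕ × ℕ} : Kept m s e ↔ ∃ y : Dy s × Fin m × Fin m, dia y = e := by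
  constructor
  · rintro ⟨x, hx, α, hα, β, hβ, h1, h2⟩
    exact ⟨(⟨x, hx⟩, ⟨α, hα⟩, ⟨β, hβ⟩), Prod.ext h1.symm h2.symm⟩
  · rintro ⟨y, rfl⟩
    exact ⟨y.1.1, y.1.2, y.2.1, y.2.1.2, y.2.2, y.2.2.2, rfl, rfl⟩

open Classical in
/-- the substitution: the variables of the pairs which are kept are the variables of the labelled
dyadic intervals, the neutral pairs get the weight 1, the others get the weight 0 -/
noncomputable def cls (m s n : ℕ) (x : Fin (n + 1) × Fin (n + 1)) :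
    Option (Option (Dy s × Fin m × Fin m)) :=
  if h : ∃ y : Dy s × Fin m × Fin m, dia y = (x.1.val, x.2.val) then some (some h.choose)
  else if Neu m (2 ^ s) n (x.1.val, x.2.val) then some none
  else none

theorem cls_some (hn : (2 * m + 2) * (2 ^ s + 1) ≤ n) (x : Fin (n + 1) × Fin (n + 1))
    (y : Dy s × Fin m × Fin m) : cls m s n x = some (some y) ↔ x = emb n (dia y) := by
  unfold cls
  constructor
  · intro h
    split_ifs at h with h1 h2
    · rw [Option.some.injEq, Option.some.injEq] at h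
      rw [← h, h1.choose_spec, emb_of_val]
    · simp at h
  · intro h
    have h1 : dia y = (x.1.val, x.2.val) := by
      rw [h]
      exact (emb_val (dia_le hn y).1 (dia_le hn y).2).symm
    have h2 : ∃ y : Dy s × Fin m × Fin m, dia y = (x.1.val, x.2.val) := ⟨y, h1⟩
    rw [dif_pos h2]
    congr 2
    exact dia_inj (h2.choose_spec.trans h1.symm)

theorem cls_none_iff (x : Fin (n + 1) × Fin (n + 1)) :
    cls m s n x = none ↔ ¬ (Kept m s (x.1.val, x.2.val) ∨ Neu m (2 ^ s) n (x.1.val, x.2.val)) := by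
  unfold cls
  rw [not_or, kept_iff]
  constructor
  · intro h
    split_ifs at h with h1 h2
    exact ⟨h1, h2⟩
  · rintro ⟨h1, h2⟩
    rw [dif_neg h1, if_neg h2]

theorem img_eq (hn : (2 * m + 2) * (2 ^ s + 1) ≤ n) (u : Fin (n + 1) × Fin (n + 1) → ℕ)
    (y : Dy s × Fin m × Fin m) : img (cls m s n) u y = u (emb n (dia y)) := by
  unfold img
  have h : univ.filter (fun x => cls m s n x = some (some y)) = {emb n (dia y)} := by
    ext x
    rw [mem_filter, mem_singleton, cls_some hn]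
    simp
  rw [h, sum_singleton]

end Classes

theorem law {R ρ : Type} [Semiring R] [Nontrivial R] [Fintype ρ] [DecidableEq ρ] {m s n : ℕ}
    (hm : 1 ≤ m) (hn : (2 * m + 2) * (2 ^ s + 1) ≤ n)
    (p : List (Instr R (Fin (n + 1) × Fin (n + 1)) ρ)) (o : ρ)
    (g1 : ∀ A ∈ fam n, ind A ∈ syms p o)
    (g2 : ∀ u ∈ syms p o, ∃ A ∈ fam n, ∀ x ∈ A, u x ≠ 0)
    (hp : 1 ≤ p.length) :
    (m ^ 2) ^ (s / 3) ≤
      2 * p.length * ((Nat.clog 2 p.length + 1) * Fintype.card ρ) ^ (s / 3) := by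
  classical
  have hn1 : 1 ≤ n := by
    have h1 : (2 * m + 2) * 1 ≤ (2 * m + 2) * (2 ^ s + 1) :=
      Nat.mul_le_mul_left _ (Nat.le_add_left 1 _)
    omega
  have hlen : (p.map (sub (cls m s n))).length = p.length := List.length_map ..
  rw [← hlen]
  refine law_dy hm (p.map (sub (cls m s n))) o ?_ ?_ (by rw [hlen]; exact hp)
  · intro χ
    rw [syms_sub]
    obtain ⟨χ', hχ'⟩ : ∃ χ' : ℕ → ℕ, ∀ v, χ' v = if h : v < 2 ^ s + 1 then (χ ⟨v, h⟩).val else 0 :=
      ⟨_, fun _ => rfl⟩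
    obtain ⟨A, hA, h1, h2⟩ := exists_tri hn χ' (by
      intro v
      rw [hχ']
      split_ifs with h
      · exact (χ ⟨v, h⟩).2
      · omega)
    have hdg : ∀ e : Dy s, dg m χ' e.1 = dia (ce lf rt χ e) := by
      intro e
      have h3 := e.le
      have h4 : 1 ≤ 2 ^ e.1.2 := Nat.one_le_two_pow
      unfold dg dia ce
      rw [hχ', hχ', dif_pos (by omega), dif_pos (by omega)]
      rfl
    refine ⟨ind (A.image (emb n)), g1 _ ((mem_fam hn1).2 ⟨A, hA, rfl⟩), ?_, ?_⟩
    · intro x hx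
      unfold ind
      rw [if_neg]
      intro hxA
      obtain ⟨e, he, rfl⟩ := mem_image.1 hxA
      rw [cls_none_iff, emb_val (hA.le he).1 (hA.le he).2] at hx
      apply hx
      rcases h2 e he with ⟨x', hx', rfl⟩ | h3
      · left
        rw [kept_iff]
        exact ⟨_, (hdg ⟨x', hx'⟩).symm⟩
      · exact Or.inr h3
    · funext y
      rw [img_eq hn]
      unfold ind
      have h3 : emb n (dia y) ∈ A.image (emb n) ↔ y ∈ cset lf rt χ := by
        rw [mem_image_emb hA (dia_le hn y).1 (dia_le hn y).2, mem_cset]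
        constructor
        · intro h
          rcases h2 _ h with ⟨x', hx', h4⟩ | h4
          · have h5 := hdg ⟨x', hx'⟩
            have h6 : y = ce lf rt χ ⟨x', hx'⟩ := dia_inj (h4.trans h5)
            rw [h6]
            rfl
          · exact absurd h4 (kept_not_neu hn (kept_iff.2 ⟨y, rfl⟩))
        · intro h
          rw [h, ← hdg]
          exact h1 _ y.1.2
      simp only [h3]
  · intro v hv
    rw [syms_sub] at hv
    obtain ⟨u, hu, hok, rfl⟩ := hv
    obtain ⟨B, hB, hBu⟩ := g2 u hu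
    obtain ⟨A, hA, rfl⟩ := (mem_fam hn1).1 hB
    obtain ⟨χ', c1, c2⟩ := exists_label hm hn hA (by
      intro e he
      by_contra hcon
      have h1 := hok (emb n e) (by
        rw [cls_none_iff, emb_val (hA.le he).1 (hA.le he).2]
        exact hcon)
      exact hBu _ (mem_image_of_mem _ he) h1)
    refine ⟨fun v => ⟨χ' v.val, c1 v.val⟩, fun e => ?_⟩
    rw [img_eq hn]
    refine hBu _ ?_
    have h3 := c2 e.1 e.2
    exact mem_image_of_mem _ h3

/-- The (min,+) program `p`, whose constants are real numbers or infinity, writes into register `o`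
the least total weight of a triangulation, for all weights in the natural numbers. -/
def SolvesMin (n : ℕ) {ρ : Type} [DecidableEq ρ]
    (p : List (Instr (Tropical (WithTop ℝ)) (Fin (n + 1) × Fin (n + 1)) ρ)) (o : ρ) : Prop :=
  ∀ w : Fin (n + 1) × Fin (n + 1) → ℕ,
    exec (fun x => Tropical.trop (((w x : ℕ) : ℝ) : WithTop ℝ)) p o =
      polygon n (fun x => Tropical.trop (((w x : ℕ) : ℝ) : WithTop ℝ))

/-- The program `p` over the nonnegative reals computes the sum over all triangulations. -/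
def SolvesSum (n : ℕ) {ρ : Type} [DecidableEq ρ]
    (p : List (Instr ℝ≥0 (Fin (n + 1) × Fin (n + 1)) ρ)) (o : ρ) : Prop :=
  ∀ w : Fin (n + 1) × Fin (n + 1) → ℝ≥0, exec w p o = polygon n w

theorem lawMin {m s n : ℕ} (hm : 1 ≤ m) (hn : (2 * m + 2) * (2 ^ s + 1) ≤ n)
    {ρ : Type} [Fintype ρ] [DecidableEq ρ]
    (p : List (Instr (Tropical (WithTop ℝ)) (Fin (n + 1) × Fin (n + 1)) ρ)) (o : ρ)
    (h : SolvesMin n p o) : 1 ≤ p.length ∧ (m ^ 2) ^ (s / 3) ≤
      2 * p.length * ((Nat.clog 2 p.length + 1) * Fintype.card ρ) ^ (s / 3) := by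
  have hn1 : 1 ≤ n := by
    have h1 : (2 * m + 2) * 1 ≤ (2 * m + 2) * (2 ^ s + 1) :=
      Nat.mul_le_mul_left _ (Nat.le_add_left 1 _)
    omega
  obtain ⟨g1, g2⟩ := good_trop_sum _ (fam_nonempty hn1) _ (fam_card hn1) p o (by
    intro w
    rw [h w, polygon_eq hn1])
  have hp : 1 ≤ p.length := by
    rcases p with _ | ⟨a, l⟩
    · obtain ⟨A, hA⟩ := fam_nonempty hn1
      have h1 := g1 _ hA
      have h2 : syms ([] : List (Instr (Tropical (WithTop ℝ))
        (Fin (n + 1) × Fin (n + 1)) ρ)) o = ∅ := rfl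
      rw [h2] at h1
      exact absurd h1 (Set.notMem_empty _)
    · simp
  exact ⟨hp, law hm hn p o g1 g2 hp⟩

theorem lawSum {m s n : ℕ} (hm : 1 ≤ m) (hn : (2 * m + 2) * (2 ^ s + 1) ≤ n)
    {ρ : Type} [Fintype ρ] [DecidableEq ρ]
    (p : List (Instr ℝ≥0 (Fin (n + 1) × Fin (n + 1)) ρ)) (o : ρ)
    (h : SolvesSum n p o) : 1 ≤ p.length ∧ (m ^ 2) ^ (s / 3) ≤
      2 * p.length * ((Nat.clog 2 p.length + 1) * Fintype.card ρ) ^ (s / 3) := by
  have hn1 : 1 ≤ n := by
    have h1 : (2 * m + 2) * 1 ≤ (2 * m + 2) * (2 ^ s + 1) :=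
      Nat.mul_le_mul_left _ (Nat.le_add_left 1 _)
    omega
  obtain ⟨g1, g2⟩ := good_nn _ _ (fam_card hn1) p o (by
    intro w
    rw [h w, polygon_eq hn1])
  have hp : 1 ≤ p.length := by
    rcases p with _ | ⟨a, l⟩
    · obtain ⟨A, hA⟩ := fam_nonempty hn1
      have h1 := g1 _ hA
      have h2 : syms ([] : List (Instr ℝ≥0 (Fin (n + 1) × Fin (n + 1)) ρ)) o = ∅ := rfl
      rw [h2] at h1
      exact absurd h1 (Set.notMem_empty _)
    · simp
  exact ⟨hp, law hm hn p o g1 g2 hp⟩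

end Pool.Agent.TH679.TG
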