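import Pool.Agent.TH679.TG.Dyad

/-!
The recursion over the intervals of time, for sets of dyadic intervals
-/

set_option autoImplicit false
set_option linter.unusedSectionVars false

namespace Pool.Agent.TH679.TG

open Finset
open Pool.Agent.H564R3.TS
open Pool.Agent.H564R3.SV (C_g C_g_card)
open Pool.Agent.TH679.DB (reveal_set)

section Cond

variable {α ρ : Type} [DecidableEq α]

/-- during `(a, b]` the set `P` gets into one register -/
def Cond (J : ℕ → ρ → Finset α) (a b : ℕ) (P : Finset α) : Prop :=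
  ∃ i, P ⊆ J b i ∧ ∀ j, Disjoint (J a j) P

/-- the condition for naming register `j` -/
def Name (J : ℕ → ρ → Finset α) (a t b : ℕ) (P : Finset α) (j : ρ) : Prop :=
  ¬ Disjoint (J t j) P ∧ ¬ P ⊆ J t j ∧ Cond J a b P

theorem cases (J : ℕ → ρ → Finset α) (a t b : ℕ) (P : Finset α) (h : Cond J a b P) :
    Cond J t b P ∨ Cond J a t P ∨ ∃ j, Name J a t b P j := by
  obtain ⟨i, h1, h2⟩ := h
  by_cases h3 : ∀ j, Disjoint (J t j) P
  · exact Or.inl ⟨i, h1, h3⟩
  · right
    push Not at h3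
    obtain ⟨j, hj⟩ := h3
    by_cases h4 : P ⊆ J t j
    · exact Or.inl ⟨j, h4, h2⟩
    · exact Or.inr ⟨j, hj, h4, i, h1, h2⟩

end Cond

theorem pow_small {ν d : ℕ} (hν : 1 ≤ ν) (h : 2 ^ d ≤ 12 * ν) : d ≤ 3 * ν := by
  by_contra hcon
  have h1 : 2 ^ (3 * ν + 1) ≤ 2 ^ d := Nat.pow_le_pow_right (by norm_num) (by omega)
  have h2 : 6 * ν < 8 ^ ν := by
    clear h h1 hcon
    induction ν, hν using Nat.le_induction with
    | base => norm_num
    | succ n hn ih => rw [pow_succ]; omega
  rw [pow_succ, pow_mul] at h1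
  norm_num at h1
  omega

variable {Ω ρ : Type}

theorem rec_tg [Fintype ρ] {m s₀ x₀ N : ℕ} (hm1 : 1 ≤ m) (Φ : Finset Ω)
    (lab : Ω → ℕ → Fin m) (J : Ω → ℕ → ρ → Finset (ℕ × ℕ))
    (hbase : ∀ ω ∈ Φ, ∀ a, a + 1 ≤ N → ∀ P, Cond (J ω) a (a + 1) P → P.card ≤ 1)
    (heq : ∀ ω ∈ Φ, ∀ ω' ∈ Φ, ∀ t ≤ N, ∀ i, (J ω t i).Nonempty → (J ω' t i).Nonempty →
      J ω t i = J ω' t i)
    (hmix : ∀ ω ∈ Φ, ∀ t ≤ N, ∀ i, (J ω t i).Nonempty → ∀ v, Mx (J ω t i) s₀ x₀ v →
      ∀ ω' ∈ Φ, (J ω' t i).Nonempty → lab ω' v = lab ω v)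
    (hK : 1 ≤ Fintype.card ρ) (h : ℕ) :
    (h + 1) * Fintype.card ρ ≤ m ^ 2 → ∀ (s a x : ℕ) (S : Finset Ω),
      a + 2 ^ h ≤ N → s ≤ s₀ → 2 ^ s ∣ x → x₀ ≤ x → x + 2 ^ s ≤ x₀ + 2 ^ s₀ →
      (∀ ω ∈ S, ω ∈ Φ ∧ Cond (J ω) a (a + 2 ^ h) (M s x)) →
      (S.image (C_g lab (Icc x (x + 2 ^ s)))).card * (m ^ 2) ^ (s / 3) ≤
        2 ^ h * ((h + 1) * Fintype.card ρ) ^ (s / 3) * m ^ (2 ^ s + 1) := by
  classical
  set K := Fintype.card ρ with hKdef
  obtain ⟨q, hq⟩ : ∃ q, q = m ^ 2 := ⟨_, rfl⟩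
  have hq1 : 1 ≤ q := by rw [hq]; exact Nat.one_le_pow _ _ hm1
  have hcardW : ∀ x s : ℕ, (Icc x (x + 2 ^ s)).card = 2 ^ s + 1 := by
    intro x s
    have h1 : 1 ≤ 2 ^ s := Nat.one_le_two_pow
    rw [Nat.card_Icc, add_assoc, Nat.add_sub_cancel_left]
  have htriv : ∀ (x s : ℕ) (S : Finset Ω),
      (S.image (C_g lab (Icc x (x + 2 ^ s)))).card ≤ m ^ (2 ^ s + 1) := by
    intro x s S
    have h1 := C_g_card lab (Icc x (x + 2 ^ s)) S
    rwa [hcardW] at h1
  rw [← hq]
  induction h with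
  | zero =>
    intro hm s a x S ha hs0 hx hx0 hx1 hS
    rcases S.eq_empty_or_nonempty with h0 | ⟨ω, hω⟩
    · rw [h0]
      simp
    have h1 := hS ω hω
    rw [pow_zero] at h1 ha
    have h2 := hbase ω h1.1 a ha _ h1.2
    have h3 : s = 0 := by
      by_contra h3
      obtain ⟨s', rfl⟩ : ∃ s', s = s' + 1 := ⟨s - 1, by omega⟩
      have h4 : (x, s' + 1) ∈ M (s' + 1) x := top_mem hx
      have h5 : (x, s') ∈ M (s' + 1) x := by
        rw [mem_M]
        exact ⟨Nat.le_succ _, le_rfl, (pow_dvd_pow 2 (Nat.le_succ s')).trans hx,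
          by dsimp only; rw [pow_succ]; omega⟩
      have h6 := card_le_one.1 h2 _ h4 _ h5
      rw [Prod.mk.injEq] at h6
      omega
    subst h3
    rw [Nat.zero_div, pow_zero, pow_zero, pow_zero, mul_one, one_mul, one_mul]
    exact htriv x 0 S
  | succ h ihh =>
    intro hm s
    have hm' : (h + 1) * K ≤ q := le_trans (Nat.mul_le_mul_right _ (by omega)) hm
    replace ihh := ihh hm'
    induction s using Nat.strong_induction_on with
    | _ s ihs =>
    intro a x S ha hs0 hx hx0 hx1 hS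
    obtain ⟨κ, hκ⟩ : ∃ κ, κ = s / 3 := ⟨_, rfl⟩
    rw [← hκ]
    rcases Nat.eq_zero_or_pos κ with hκ0 | hκpos
    · rw [hκ0, pow_zero, mul_one, pow_zero, mul_one]
      calc _ ≤ 1 * m ^ (2 ^ s + 1) := by rw [one_mul]; exact htriv x s S
        _ ≤ _ := Nat.mul_le_mul_right _ Nat.one_le_two_pow
    have hs3 : 3 ≤ s := by omega
    set t := a + 2 ^ h with ht
    have hb : a + 2 ^ (h + 1) = t + 2 ^ h := by rw [ht, pow_succ]; ring
    set b := a + 2 ^ (h + 1) with hbdef
    have h2h : 0 < 2 ^ h := Nat.pow_pos (by norm_num)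
    have htb : t ≤ b := by omega
    obtain ⟨P, hP⟩ : ∃ P, P = M s x := ⟨_, rfl⟩
    rw [← hP] at hS
    obtain ⟨W, hW⟩ : ∃ W, W = Icc x (x + 2 ^ s) := ⟨_, rfl⟩
    have hWc : W.card = 2 ^ s + 1 := by rw [hW]; exact hcardW x s
    rw [← hW]
    set f := C_g lab W with hf
    set SR := S.filter (fun ω => Cond (J ω) t b P) with hSR
    set SL := S.filter (fun ω => Cond (J ω) a t P) with hSL
    set SN : ρ → Finset Ω := fun j => S.filter (fun ω => Name (J ω) a t b P j) with hSN
    have hsub : S ⊆ (SR ∪ SL) ∪ univ.biUnion SN := by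
      intro ω hω
      have h1 := hS ω hω
      rcases cases (J ω) a t b P h1.2 with h2 | h2 | ⟨j, h2⟩
      · exact mem_union_left _ (mem_union_left _ (mem_filter.2 ⟨hω, h2⟩))
      · exact mem_union_left _ (mem_union_right _ (mem_filter.2 ⟨hω, h2⟩))
      · exact mem_union_right _ (mem_biUnion.2 ⟨j, mem_univ j, mem_filter.2 ⟨hω, h2⟩⟩)
    have hcard : (S.image f).card ≤
        (SR.image f).card + (SL.image f).card + ∑ j, ((SN j).image f).card := by
      have h1 : S.image f ⊆ (SR.image f ∪ SL.image f) ∪ univ.biUnion (fun j => (SN j).image f) := by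
        intro V hV
        rw [mem_image] at hV
        obtain ⟨A, hA, rfl⟩ := hV
        have h2 := hsub hA
        rw [mem_union, mem_union, mem_biUnion] at h2
        rw [mem_union, mem_union, mem_biUnion]
        rcases h2 with (h2 | h2) | ⟨j, hj, h2⟩
        · exact Or.inl (Or.inl (mem_image_of_mem f h2))
        · exact Or.inl (Or.inr (mem_image_of_mem f h2))
        · exact Or.inr ⟨j, hj, mem_image_of_mem f h2⟩
      refine (card_le_card h1).trans ((card_union_le _ _).trans ?_)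
      exact Nat.add_le_add (card_union_le _ _) card_biUnion_le
    have hR : (SR.image f).card * q ^ κ ≤ 2 ^ h * ((h + 1) * K) ^ κ * m ^ (2 ^ s + 1) := by
      rw [hf, hW, hκ]
      refine ihh s t x SR (by omega) hs0 hx hx0 hx1 ?_
      intro ω hω
      rw [hSR, mem_filter] at hω
      refine ⟨(hS ω hω.1).1, ?_⟩
      rw [← hb, ← hP]
      exact hω.2
    have hLe : (SL.image f).card * q ^ κ ≤ 2 ^ h * ((h + 1) * K) ^ κ * m ^ (2 ^ s + 1) := by
      rw [hf, hW, hκ]
      refine ihh s a x SL (by omega) hs0 hx hx0 hx1 ?_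
      intro ω hω
      rw [hSL, mem_filter] at hω
      rw [← hP]
      exact ⟨(hS ω hω.1).1, hω.2⟩
    set Q := (h + 2) * K with hQ
    have hQm : Q ≤ q := hm
    have hQ1 : 1 ≤ Q := Nat.mul_pos (by omega) hK
    have hN : ∀ j, ((SN j).image f).card * q ^ κ ≤
        2 ^ (h + 1) * Q ^ (κ - 1) * m ^ (2 ^ s + 1) := by
      intro j
      rcases (SN j).eq_empty_or_nonempty with h0 | ⟨ω₀, hω₀⟩
      · rw [h0]
        simp
      have hmemN : ∀ ω ∈ SN j, ω ∈ Φ ∧ Name (J ω) a t b P j := by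
        intro ω hω
        rw [hSN] at hω
        simp only [mem_filter] at hω
        exact ⟨(hS ω hω.1).1, hω.2⟩
      have hne : ∀ ω ∈ SN j, (J ω t j).Nonempty := by
        intro ω hω
        obtain ⟨_, h3, _⟩ := hmemN ω hω
        rw [nonempty_iff_ne_empty]
        intro h4
        rw [h4] at h3
        exact h3 (disjoint_empty_left _)
      obtain ⟨D, hD⟩ : ∃ D, D = J ω₀ t j := ⟨_, rfl⟩
      have hDeq : ∀ ω ∈ SN j, J ω t j = D := fun ω hω => hD ▸
        heq ω (hmemN ω hω).1 ω₀ (hmemN ω₀ hω₀).1 t (by omega) j (hne ω hω) (hne ω₀ hω₀)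
      -- the borders
      obtain ⟨R, hR'⟩ : ∃ R, R = mixed D s x := ⟨_, rfl⟩
      have hR2 : 2 ≤ R.card := by
        have h4 := (hmemN ω₀ hω₀).2
        rw [hR']
        refine two_le_mixed hx ?_ ?_
        · rw [hD, ← hP]
          exact h4.2.1
        · rw [hD, ← hP, disjoint_comm]
          exact h4.1
      obtain ⟨ν, hν⟩ : ∃ ν, ν = R.card / 2 := ⟨_, rfl⟩
      have hν1 : 1 ≤ ν := by omega
      obtain ⟨R', hR'R, hR'c⟩ := exists_subset_card_eq (show 2 * ν ≤ R.card by omega)
      have hRW : R ⊆ W := by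
        intro v hv
        rw [hR', mem_mixed] at hv
        obtain ⟨e, he, _, h1⟩ := hv.1
        rw [hW]
        exact inc_mem he h1
      have hRlab : ∀ ω ∈ SN j, ∀ v ∈ R, lab ω v = lab ω₀ v := by
        intro ω hω v hv
        refine hmix ω₀ (hmemN ω₀ hω₀).1 t (by omega) j (hne ω₀ hω₀) v ?_ ω (hmemN ω hω).1
          (hne ω hω)
        rw [hR'] at hv
        rw [← hD]
        exact mem_mixed.1 (mixed_mono (M_sub hs0 hx0 hx1) hv)
      obtain ⟨d, hd⟩ : ∃ d, d = Nat.clog 2 (2 * R.card + 1) := ⟨_, rfl⟩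
      have hd1 : 2 * R.card < 2 ^ d := by
        have := Nat.le_pow_clog (b := 2) (by norm_num) (2 * R.card + 1)
        rw [← hd] at this
        omega
      have hd2 : 2 ^ d ≤ 12 * ν := by
        have h1 := Nat.pow_pred_clog_lt_self (b := 2) (by norm_num)
          (show 1 < 2 * R.card + 1 by omega)
        rw [← hd] at h1
        have h2 : 1 ≤ d := by
          rcases Nat.eq_zero_or_pos d with h3 | h3
          · rw [h3, pow_zero] at hd1
            omega
          · exact h3
        have h3 : 2 ^ d = 2 * 2 ^ (d - 1) := by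
          rw [← pow_succ']
          congr 1
          omega
        have h4 : d.pred = d - 1 := rfl
        rw [h4] at h1
        omega
      have hd3 : d ≤ 3 * ν := pow_small hν1 hd2
      -- the main inequality, for a smaller window
      have hmain : ∃ κ', κ ≤ κ' + ν ∧ ((SN j).image f).card * q ^ (κ' + ν) ≤
          2 ^ (h + 1) * Q ^ κ' * m ^ (2 ^ s + 1) := by
        rcases Nat.lt_or_ge s d with hsd | hsd
        · refine ⟨0, by omega, ?_⟩
          have h1 := reveal_set lab ∅ R' W (SN j) ω₀ (fun ω hω g hg => hRlab ω hω g (hR'R hg))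
            (empty_subset _) (hR'R.trans hRW) (disjoint_empty_left _)
          have h2 : ((SN j).image (C_g lab ∅)).card ≤ 1 := by
            have := C_g_card lab ∅ (SN j)
            rwa [card_empty, pow_zero] at this
          rw [card_empty, zero_add, hR'c, hWc, pow_mul, ← hq] at h1
          rw [zero_add, pow_zero, mul_one]
          calc _ ≤ _ := h1
            _ ≤ 1 * m ^ (2 ^ s + 1) := Nat.mul_le_mul_right _ h2
            _ ≤ _ := Nat.mul_le_mul_right _ Nat.one_le_two_pow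
        · obtain ⟨y, y1, y2, y3, y4⟩ := exists_window hx hsd hd1
          obtain ⟨s', hs'⟩ : ∃ s', s' = s - d := ⟨_, rfl⟩
          rw [← hs'] at y1 y3 y4
          have hdpos : 1 ≤ d := by
            rcases Nat.eq_zero_or_pos d with h3 | h3
            · rw [h3, pow_zero] at hd1
              omega
            · exact h3
          refine ⟨s' / 3, by omega, ?_⟩
          obtain ⟨W', hW'⟩ : ∃ W', W' = Icc y (y + 2 ^ s') := ⟨_, rfl⟩
          have hW'c : W'.card = 2 ^ s' + 1 := by rw [hW']; exact hcardW y s'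
          rw [← hW'] at y4
          have hMM : M s' y ⊆ M s x := M_sub (by omega) y2 y3
          have hW'W : W' ⊆ W := by
            intro v hv
            rw [hW', mem_Icc] at hv
            rw [hW, mem_Icc]
            omega
          obtain ⟨X, hX⟩ : ∃ X, X = ((SN j).image (C_g lab W')).card := ⟨_, rfl⟩
          have h1 := reveal_set lab W' R' W (SN j) ω₀ (fun ω hω g hg => hRlab ω hω g (hR'R hg))
            hW'W (hR'R.trans hRW) (disjoint_of_subset_right hR'R y4)
          rw [hR'c, hWc, hW'c, pow_add m (2 ^ s' + 1) (2 * ν), pow_mul m 2 ν, ← hq, ← hX] at h1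
          have hrec : X * q ^ (s' / 3) ≤ 2 ^ (h + 1) * Q ^ (s' / 3) * m ^ (2 ^ s' + 1) := by
            rcases uniform_of y1 hMM (by rw [← hW', ← hR']; exact y4) with hu | hu
            · have h1 := ihh s' a y (SN j) (by omega) (by omega) y1 (by omega) (by omega) (by
                intro ω hω
                refine ⟨(hmemN ω hω).1, j, ?_, ?_⟩
                · rw [← ht, hDeq ω hω]
                  exact hu
                · intro i
                  obtain ⟨_, _, _, _, h3⟩ := (hmemN ω hω).2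
                  refine disjoint_of_subset_right ?_ (h3 i)
                  rw [hP]
                  exact hMM)
              rw [← hW', ← hX] at h1
              refine h1.trans ?_
              refine Nat.mul_le_mul_right _ (Nat.mul_le_mul ?_ ?_)
              · exact Nat.pow_le_pow_right (by norm_num) (by omega)
              · exact Nat.pow_le_pow_left (Nat.mul_le_mul_right _ (by omega)) _
            · have h1 := ihs s' (by omega) a y (SN j) ha (by omega) y1 (by omega) (by omega) (by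
                intro ω hω
                obtain ⟨_, _, i, h2, h3⟩ := (hmemN ω hω).2
                rw [hP] at h2 h3
                exact ⟨(hmemN ω hω).1, i, hMM.trans h2,
                  fun l => disjoint_of_subset_right hMM (h3 l)⟩)
              rw [← hW', ← hX] at h1
              exact h1
          refine Nat.le_of_mul_le_mul_right (c := m ^ (2 ^ s' + 1)) ?_ (Nat.pow_pos hm1)
          calc ((SN j).image f).card * q ^ (s' / 3 + ν) * m ^ (2 ^ s' + 1)
              = ((SN j).image f).card * (m ^ (2 ^ s' + 1) * q ^ ν) * q ^ (s' / 3) := by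
                rw [pow_add]; ring
            _ ≤ X * m ^ (2 ^ s + 1) * q ^ (s' / 3) := Nat.mul_le_mul_right _ h1
            _ = (X * q ^ (s' / 3)) * m ^ (2 ^ s + 1) := by ring
            _ ≤ (2 ^ (h + 1) * Q ^ (s' / 3) * m ^ (2 ^ s' + 1)) * m ^ (2 ^ s + 1) :=
                Nat.mul_le_mul_right _ hrec
            _ = _ := by ring
      obtain ⟨κ', hκκ, hmain⟩ := hmain
      obtain ⟨e', he'⟩ : ∃ e', κ' + ν = κ + e' := ⟨κ' + ν - κ, by omega⟩
      have h3Q : Q ^ κ' ≤ Q ^ (κ - 1) * q ^ e' := by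
        calc Q ^ κ' ≤ Q ^ (κ - 1 + e') := Nat.pow_le_pow_right hQ1 (by omega)
          _ = Q ^ (κ - 1) * Q ^ e' := pow_add _ _ _
          _ ≤ Q ^ (κ - 1) * q ^ e' := Nat.mul_le_mul_left _ (Nat.pow_le_pow_left hQm _)
      refine Nat.le_of_mul_le_mul_right (c := q ^ e') ?_ (Nat.pow_pos hq1)
      calc ((SN j).image f).card * q ^ κ * q ^ e'
          = ((SN j).image f).card * q ^ (κ' + ν) := by rw [he', pow_add, mul_assoc]
        _ ≤ 2 ^ (h + 1) * Q ^ κ' * m ^ (2 ^ s + 1) := hmain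
        _ ≤ 2 ^ (h + 1) * (Q ^ (κ - 1) * q ^ e') * m ^ (2 ^ s + 1) :=
            Nat.mul_le_mul_right _ (Nat.mul_le_mul_left _ h3Q)
        _ = _ := by ring
    -- total
    have hRL : ((SR.image f).card + (SL.image f).card) * q ^ κ ≤
        2 ^ (h + 1) * ((h + 1) * K) ^ κ * m ^ (2 ^ s + 1) := by
      calc ((SR.image f).card + (SL.image f).card) * q ^ κ
          = (SR.image f).card * q ^ κ + (SL.image f).card * q ^ κ := add_mul _ _ _
        _ ≤ 2 ^ h * ((h + 1) * K) ^ κ * m ^ (2 ^ s + 1) +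
            2 ^ h * ((h + 1) * K) ^ κ * m ^ (2 ^ s + 1) := Nat.add_le_add hR hLe
        _ = _ := by rw [pow_succ]; ring
    have hsumN : (∑ j, ((SN j).image f).card) * q ^ κ ≤
        2 ^ (h + 1) * (K * Q ^ (κ - 1)) * m ^ (2 ^ s + 1) := by
      rw [sum_mul]
      refine (sum_le_card_nsmul _ _ _ fun j _ => hN j).trans (le_of_eq ?_)
      rw [card_univ, ← hKdef, smul_eq_mul]
      ring
    calc (S.image f).card * q ^ κ
        ≤ ((SR.image f).card + (SL.image f).card + ∑ j, ((SN j).image f).card) * q ^ κ :=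
          Nat.mul_le_mul_right _ hcard
      _ = ((SR.image f).card + (SL.image f).card) * q ^ κ +
          (∑ j, ((SN j).image f).card) * q ^ κ := add_mul _ _ _
      _ ≤ 2 ^ (h + 1) * ((h + 1) * K) ^ κ * m ^ (2 ^ s + 1) +
          2 ^ (h + 1) * (K * Q ^ (κ - 1)) * m ^ (2 ^ s + 1) := Nat.add_le_add hRL hsumN
      _ = 2 ^ (h + 1) * (((h + 1) * K) ^ κ + K * Q ^ (κ - 1)) * m ^ (2 ^ s + 1) := by
          ring
      _ ≤ 2 ^ (h + 1) * Q ^ κ * m ^ (2 ^ s + 1) :=
          Nat.mul_le_mul_right _ (Nat.mul_le_mul_left _ (C_pow h K κ hκpos))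
      _ = _ := rfl

end Pool.Agent.TH679.TG
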