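import Mathlib

/-!
Triangulations of a convex polygon
-/

set_option autoImplicit false

namespace Pool.Agent.TH679.TG

open Finset

/-- The value of the interval `[i, i + l]` for the weights `w i j` of the pairs of points: `1` for
an interval without inner points, and otherwise the weight of the interval times the sum, over all
inner points, of the product of the values of the two parts. -/
def val {R : Type} [CommSemiring R] (w : ℕ → ℕ → R) : ℕ → ℕ → R
  | 0, _ => 1
  | 1, _ => 1
  | l + 2, i => w i (i + (l + 2)) *
      ∑ k : Fin (l + 1), val w (k.val + 1) i * val w (l + 1 - k.val) (i + (k.val + 1))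
termination_by l => l
decreasing_by
  · omega
  · omega

/-- `Tri i j A`: the pairs of `A` form a triangulation of the polygon with the vertices
`i, ..., j` -/
inductive Tri : ℕ → ℕ → Finset (ℕ × ℕ) → Prop
  | unit (i : ℕ) : Tri i (i + 1) ∅
  | node (i k j : ℕ) (B C : Finset (ℕ × ℕ)) : Tri i k B → Tri k j C →
      Tri i j (insert (i, j) (B ∪ C))

theorem Tri.lt {i j : ℕ} {A : Finset (ℕ × ℕ)} (h : Tri i j A) : i < j := by
  induction h with
  | unit i => omega
  | node i k j B C _ _ h1 h2 => omega

theorem Tri.inside {i j : ℕ} {A : Finset (ℕ × ℕ)} (h : Tri i j A) :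
    ∀ e ∈ A, i ≤ e.1 ∧ e.1 + 2 ≤ e.2 ∧ e.2 ≤ j := by
  induction h with
  | unit i => simp
  | node i k j B C hB hC h1 h2 =>
    intro e he
    have a1 := hB.lt
    have a2 := hC.lt
    rw [mem_insert, mem_union] at he
    rcases he with rfl | he | he
    · dsimp only
      omega
    · have := h1 e he
      omega
    · have := h2 e he
      omega

theorem Tri.top {i j : ℕ} {A : Finset (ℕ × ℕ)} (h : Tri i j A) (hij : i + 2 ≤ j) :
    (i, j) ∈ A := by
  cases h with
  | unit => omega
  | node i k j B C _ _ => exact mem_insert_self _ _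

/-- the decomposition at the top -/
theorem Tri.apex {i j : ℕ} {A : Finset (ℕ × ℕ)} (h : Tri i j A) (hij : i + 2 ≤ j) :
    ∃ k B C, Tri i k B ∧ Tri k j C ∧ A = insert (i, j) (B ∪ C) := by
  cases h with
  | unit => omega
  | node i k j B C h1 h2 => exact ⟨k, B, C, h1, h2, rfl⟩

theorem Tri.filter_left {i k j : ℕ} {B C : Finset (ℕ × ℕ)} (hB : Tri i k B) (hC : Tri k j C) :
    (insert (i, j) (B ∪ C)).filter (fun e => e.2 ≤ k) = B := by
  ext e
  rw [mem_filter, mem_insert, mem_union]
  constructor
  · rintro ⟨rfl | h | h, h1⟩
    · have := hC.lt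
      dsimp only at h1
      omega
    · exact h
    · have := hC.inside e h
      omega
  · intro h
    exact ⟨Or.inr (Or.inl h), (hB.inside e h).2.2⟩

theorem Tri.filter_right {i k j : ℕ} {B C : Finset (ℕ × ℕ)} (hB : Tri i k B) (hC : Tri k j C) :
    (insert (i, j) (B ∪ C)).filter (fun e => k ≤ e.1) = C := by
  ext e
  rw [mem_filter, mem_insert, mem_union]
  constructor
  · rintro ⟨rfl | h | h, h1⟩
    · have := hB.lt
      dsimp only at h1
      omega
    · have := hB.inside e h
      omega
    · exact h
  · intro h
    exact ⟨Or.inr (Or.inr h), (hC.inside e h).1⟩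

theorem Tri.split_le {i k k' j : ℕ} {B C B' C' : Finset (ℕ × ℕ)} (hB : Tri i k B) (hC : Tri k j C)
    (hB' : Tri i k' B') (hC' : Tri k' j C')
    (h : insert (i, j) (B ∪ C) = insert (i, j) (B' ∪ C')) : k' ≤ k := by
  by_contra hcon
  have a1 := hB.lt
  have a2 := hC'.lt
  have h1 : (i, k') ∈ insert (i, j) (B ∪ C) := by
    rw [h]
    exact mem_insert_of_mem (mem_union_left _ (hB'.top (by omega)))
  rw [mem_insert, mem_union, Prod.mk.injEq] at h1
  rcases h1 with ⟨_, h1⟩ | h1 | h1
  · omega
  · have := hB.inside _ h1
    dsimp only at this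
    omega
  · have := hC.inside _ h1
    dsimp only at this
    omega

theorem Tri.split_eq {i k k' j : ℕ} {B C B' C' : Finset (ℕ × ℕ)} (hB : Tri i k B) (hC : Tri k j C)
    (hB' : Tri i k' B') (hC' : Tri k' j C')
    (h : insert (i, j) (B ∪ C) = insert (i, j) (B' ∪ C')) : k = k' ∧ B = B' ∧ C = C' := by
  have h1 : k = k' := le_antisymm (Tri.split_le hB' hC' hB hC h.symm)
    (Tri.split_le hB hC hB' hC' h)
  subst h1
  refine ⟨rfl, ?_, ?_⟩
  · rw [← Tri.filter_left hB hC, h, Tri.filter_left hB' hC']
  · rw [← Tri.filter_right hB hC, h, Tri.filter_right hB' hC']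

theorem Tri.card {i j : ℕ} {A : Finset (ℕ × ℕ)} (h : Tri i j A) : A.card + i + 1 = j := by
  induction h with
  | unit i => simp
  | node i k j B C hB hC h1 h2 =>
    have d1 : Disjoint B C := by
      rw [disjoint_left]
      intro e he he'
      have b1 := hB.inside e he
      have b2 := hC.inside e he'
      omega
    have d2 : (i, j) ∉ B ∪ C := by
      rw [mem_union, not_or]
      constructor
      · intro he
        have b1 := hB.inside _ he
        have b2 := hC.lt
        dsimp only at b1
        omega
      · intro he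
        have b1 := hC.inside _ he
        have b2 := hB.lt
        dsimp only at b1
        omega
    rw [card_insert_of_notMem d2, card_union_of_disjoint d1]
    omega

/-- the triangulations of the polygon with the vertices `i, ..., i + l` -/
def tris : ℕ → ℕ → Finset (Finset (ℕ × ℕ))
  | 0, _ => {∅}
  | 1, _ => {∅}
  | l + 2, i => univ.biUnion fun k : Fin (l + 1) =>
      (tris (k.val + 1) i ×ˢ tris (l + 1 - k.val) (i + (k.val + 1))).image
        fun p => insert (i, i + (l + 2)) (p.1 ∪ p.2)
termination_by l => l
decreasing_by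
  · omega
  · omega

theorem mem_tris : ∀ {l i : ℕ} {A : Finset (ℕ × ℕ)}, 1 ≤ l →
    (A ∈ tris l i ↔ Tri i (i + l) A) := by
  intro l
  induction l using Nat.strong_induction_on with
  | _ l ih =>
  intro i A hl
  rcases l with _ | _ | l
  · omega
  · rw [tris, mem_singleton]
    constructor
    · rintro rfl
      exact Tri.unit i
    · intro h
      have h1 := h.card
      rw [← card_eq_zero]
      omega
  · rw [tris, mem_biUnion]
    constructor
    · rintro ⟨k, _, hk⟩
      rw [mem_image] at hk
      obtain ⟨⟨B, C⟩, hBC, rfl⟩ := hk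
      rw [mem_product] at hBC
      dsimp only at hBC ⊢
      have hk := k.2
      have h1 := (ih (k.val + 1) (by omega) (by omega)).1 hBC.1
      have h2 := (ih (l + 1 - k.val) (by omega) (by omega)).1 hBC.2
      have e : i + (k.val + 1) + (l + 1 - k.val) = i + (l + 2) := by omega
      rw [e] at h2
      exact Tri.node _ _ _ _ _ h1 h2
    · intro h
      obtain ⟨k, B, C, h1, h2, rfl⟩ := h.apex (by omega)
      have a1 := h1.lt
      have a2 := h2.lt
      refine ⟨⟨k - i - 1, by omega⟩, mem_univ _, ?_⟩
      rw [mem_image]
      refine ⟨(B, C), ?_, rfl⟩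
      rw [mem_product]
      dsimp only
      have e1 : i + (k - i - 1 + 1) = k := by omega
      rw [e1]
      constructor
      · refine (ih _ (by omega) (by omega)).2 ?_
        rw [e1]
        exact h1
      · refine (ih _ (by omega) (by omega)).2 ?_
        have e2 : k + (l + 1 - (k - i - 1)) = i + (l + 2) := by omega
        rw [e2]
        exact h2

theorem val_eq {R : Type} [CommSemiring R] (w : ℕ → ℕ → R) : ∀ {l : ℕ} (i : ℕ), 1 ≤ l →
    val w l i = ∑ A ∈ tris l i, ∏ x ∈ A, w x.1 x.2 := by
  intro l
  induction l using Nat.strong_induction_on with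
  | _ l ih =>
  intro i hl
  rcases l with _ | _ | l
  · omega
  · rw [val, tris, sum_singleton, prod_empty]
  · have hin : ∀ (k : Fin (l + 1)) (p : Finset (ℕ × ℕ) × Finset (ℕ × ℕ)),
        p ∈ tris (k.val + 1) i ×ˢ tris (l + 1 - k.val) (i + (k.val + 1)) →
        Tri i (i + (k.val + 1)) p.1 ∧ Tri (i + (k.val + 1)) (i + (l + 2)) p.2 := by
      intro k p hp
      have hk := k.2
      rw [mem_product] at hp
      refine ⟨(mem_tris (by omega)).1 hp.1, ?_⟩
      have h2 := (mem_tris (by omega)).1 hp.2
      have e : i + (k.val + 1) + (l + 1 - k.val) = i + (l + 2) := by omega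
      rwa [e] at h2
    rw [val, tris, sum_biUnion]
    · rw [mul_sum]
      refine sum_congr rfl fun k _ => ?_
      have hk := k.2
      rw [sum_image]
      · rw [ih _ (by omega) i (by omega), ih _ (by omega) _ (by omega), sum_mul_sum,
          ← sum_product', mul_sum]
        refine sum_congr rfl fun p hp => ?_
        obtain ⟨h1, h2⟩ := hin k p hp
        have d1 : Disjoint p.1 p.2 := by
          rw [disjoint_left]
          intro e he he'
          have b1 := h1.inside e he
          have b2 := h2.inside e he'
          omega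
        have d2 : (i, i + (l + 2)) ∉ p.1 ∪ p.2 := by
          rw [mem_union, not_or]
          constructor
          · intro he
            have b1 := h1.inside _ he
            dsimp only at b1
            omega
          · intro he
            have b1 := h2.inside _ he
            dsimp only at b1
            omega
        rw [prod_insert d2, prod_union d1]
      · intro p hp q hq h
        obtain ⟨h1, h2⟩ := hin k p hp
        obtain ⟨h3, h4⟩ := hin k q hq
        obtain ⟨_, h5, h6⟩ := Tri.split_eq h1 h2 h3 h4 h
        exact Prod.ext h5 h6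
    · intro k _ k' _ hne
      show Disjoint _ _
      rw [disjoint_left]
      intro A hA hA'
      rw [mem_image] at hA hA'
      obtain ⟨p, hp, rfl⟩ := hA
      obtain ⟨q, hq, h⟩ := hA'
      obtain ⟨h1, h2⟩ := hin k p hp
      obtain ⟨h3, h4⟩ := hin k' q hq
      obtain ⟨h5, _⟩ := Tri.split_eq h3 h4 h1 h2 h
      apply hne
      apply Fin.ext
      omega

end Pool.Agent.TH679.TG
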